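import Mathlib

/-!
The family `d = t (u^2 - t) (u^2 + t)`: rational right triangles, squarefreeness, residues mod 8.
(helper268)
-/

set_option autoImplicit false

namespace Pool.Agent.W268.CN

/-- the triangle -/
lemma tri (u t : ℕ) (hu : 0 < u) (ht : 0 < t) (h : t < u ^ 2) :
    ∃ a b c : ℚ, 0 < a ∧ 0 < b ∧ 0 < c ∧ a ^ 2 + b ^ 2 = c ^ 2 ∧
      ((t * (u ^ 2 - t) * (u ^ 2 + t) : ℕ) : ℚ) = a * b / 2 := by
  have huQ : (0 : ℚ) < u := by exact_mod_cast hu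
  have htQ : (0 : ℚ) < t := by exact_mod_cast ht
  have hQ : (t : ℚ) < u ^ 2 := by exact_mod_cast h
  have h4 : (0 : ℚ) < u ^ 4 - t ^ 2 := by
    have : (u : ℚ) ^ 4 - t ^ 2 = (u ^ 2 - t) * (u ^ 2 + t) := by ring
    rw [this]
    exact mul_pos (by linarith) (by positivity)
  refine ⟨(u ^ 4 - t ^ 2) / u, 2 * u * t, (u ^ 4 + t ^ 2) / u, by positivity, by positivity,
    by positivity, ?_, ?_⟩
  · field_simp; ring
  · rw [Nat.cast_mul, Nat.cast_mul, Nat.cast_sub h.le]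
    push_cast
    field_simp
    ring

/-- squarefreeness of the product -/
lemma sqfree_prod (u t : ℕ) (h : t < u ^ 2) (hcop : Nat.Coprime u t)
    (hodd : (u ^ 2 - t) % 2 = 1) (h1 : Squarefree t) (h2 : Squarefree (u ^ 2 - t))
    (h3 : Squarefree (u ^ 2 + t)) : Squarefree (t * (u ^ 2 - t) * (u ^ 2 + t)) := by
  have hc : Nat.Coprime (u ^ 2) t := hcop.pow_left 2
  have c1 : Nat.Coprime t (u ^ 2 - t) := by
    rw [Nat.coprime_comm]
    have e : u ^ 2 = (u ^ 2 - t) + t := by omega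
    rw [e] at hc
    exact (Nat.coprime_add_self_left).mp hc
  have c2 : Nat.Coprime t (u ^ 2 + t) := by
    rw [Nat.coprime_comm]
    exact (Nat.coprime_add_self_left).mpr hc
  have c3 : Nat.Coprime (u ^ 2 - t) (u ^ 2 + t) := by
    have e : u ^ 2 + t = (u ^ 2 - t) + 2 * t := by omega
    rw [e, Nat.coprime_self_add_right]
    apply Nat.Coprime.mul_right _ c1.symm
    rw [Nat.coprime_two_right, Nat.odd_iff]; exact hodd
  rw [Nat.squarefree_mul (Nat.Coprime.mul_left c2 c3), Nat.squarefree_mul c1]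
  exact ⟨⟨h1, h2⟩, h3⟩

/-- squarefreeness from the primes `2`, `3` and `≥ 5` -/
lemma sqf_of (v : ℕ) (h4 : ¬ 4 ∣ v) (h9 : ¬ 9 ∣ v)
    (h : ∀ p, p.Prime → 5 ≤ p → ¬ p ^ 2 ∣ v) : Squarefree v := by
  rw [Nat.squarefree_iff_prime_squarefree]
  intro p hp hpp
  rw [← pow_two] at hpp
  rcases lt_or_ge p 5 with h5 | h5
  · have h2 := hp.two_le
    have : p = 2 ∨ p = 3 ∨ p = 4 := by omega
    rcases this with rfl | rfl | rfl
    · exact h4 (by simpa using hpp)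
    · exact h9 (by simpa using hpp)
    · exact absurd hp (by norm_num)
  · exact h p hp h5 hpp

/-- the residue class of `t` mod 72 belonging to the class `j` of `d` mod 8 -/
def res (j : ℕ) : ℕ :=
  if j = 1 then 39 else if j = 3 then 21 else if j = 5 then 3 else if j = 7 then 57
  else if j = 2 then 66 else 30

/-- everything about `d = t (u^2 - t)(u^2 + t)` -/
theorem family (u t j : ℕ) (hj : j = 1 ∨ j = 2 ∨ j = 3 ∨ j = 5 ∨ j = 6 ∨ j = 7)
    (hu : 0 < u) (h : t < u ^ 2) (hu3 : u % 3 ≠ 0) (hpar : u % 2 = (j + 1) % 2)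
    (ht : t % 72 = res j)
    (hs : ∀ p, p.Prime → 5 ≤ p → ¬ p ^ 2 ∣ t ∧ ¬ p ^ 2 ∣ u ^ 2 - t ∧ ¬ p ^ 2 ∣ u ^ 2 + t ∧
      (p ∣ u → ¬ p ∣ t)) :
    Squarefree (t * (u ^ 2 - t) * (u ^ 2 + t)) ∧ (t * (u ^ 2 - t) * (u ^ 2 + t)) % 8 = j ∧
    ∃ a b c : ℚ, 0 < a ∧ 0 < b ∧ 0 < c ∧ a ^ 2 + b ^ 2 = c ^ 2 ∧
      ((t * (u ^ 2 - t) * (u ^ 2 + t) : ℕ) : ℚ) = a * b / 2 := by
  have ht8 : t % 8 = res j % 8 := by omega
  have ht9 : t % 9 = 3 := by
    have : res j % 9 = 3 := by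
      rcases hj with rfl | rfl | rfl | rfl | rfl | rfl <;> rfl
    omega
  have ht0 : 0 < t := by omega
  have hu9 : u ^ 2 % 3 = 1 := by
    have h3 : u % 3 = 1 ∨ u % 3 = 2 := by omega
    rcases h3 with h3 | h3 <;> rw [Nat.pow_mod, h3]
  have hu2 : u ^ 2 % 4 = u % 2 := by
    have h3 : u % 4 = 0 ∨ u % 4 = 1 ∨ u % 4 = 2 ∨ u % 4 = 3 := by omega
    rcases h3 with h3 | h3 | h3 | h3 <;> rw [Nat.pow_mod, h3] <;> omega
  have htpar : t % 2 = j % 2 ∧ t % 4 ≠ 0 := by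
    have hr : (j = 1 ∧ res j = 39) ∨ (j = 2 ∧ res j = 66) ∨ (j = 3 ∧ res j = 21) ∨
        (j = 5 ∧ res j = 3) ∨ (j = 6 ∧ res j = 30) ∨ (j = 7 ∧ res j = 57) := by
      rcases hj with rfl | rfl | rfl | rfl | rfl | rfl <;> simp [res]
    generalize res j = r at *
    omega
  have hodd : (u ^ 2 - t) % 2 = 1 := by omega
  have hcop : Nat.Coprime u t := by
    rw [Nat.Coprime, Nat.eq_one_iff_not_exists_prime_dvd]
    intro p hp hpd
    have h1 : p ∣ u := hpd.trans (Nat.gcd_dvd_left _ _)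
    have h2 : p ∣ t := hpd.trans (Nat.gcd_dvd_right _ _)
    rcases lt_or_ge p 5 with h5 | h5
    · have h2' := hp.two_le
      have : p = 2 ∨ p = 3 ∨ p = 4 := by omega
      rcases this with rfl | rfl | rfl
      · omega
      · omega
      · exact absurd hp (by norm_num)
    · exact (hs p hp h5).2.2.2 h1 h2
  have q1 : Squarefree t := sqf_of t (by omega) (by omega) (fun p hp h5 => (hs p hp h5).1)
  have q2 : Squarefree (u ^ 2 - t) :=
    sqf_of _ (by omega) (by omega) (fun p hp h5 => (hs p hp h5).2.1)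
  have q3 : Squarefree (u ^ 2 + t) :=
    sqf_of _ (by omega) (by omega) (fun p hp h5 => (hs p hp h5).2.2.1)
  refine ⟨sqfree_prod u t h hcop hodd q1 q2 q3, ?_, tri u t hu ht0 h⟩
  -- residue mod 8
  have hmod : (((t * (u ^ 2 - t) * (u ^ 2 + t) : ℕ) : ℤ)) = (t : ℤ) * (u ^ 4 - t ^ 2) := by
    rw [Nat.cast_mul, Nat.cast_mul, Nat.cast_sub h.le]
    push_cast
    ring
  have hZ : (t : ℤ) * (u ^ 4 - t ^ 2) % 8 = j := by
    have hu8 : u % 8 = 0 ∨ u % 8 = 1 ∨ u % 8 = 2 ∨ u % 8 = 3 ∨ u % 8 = 4 ∨ u % 8 = 5 ∨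
        u % 8 = 6 ∨ u % 8 = 7 := by omega
    have key : ∀ a b : ℤ, (t : ℤ) ≡ a [ZMOD 8] → (u : ℤ) ≡ b [ZMOD 8] →
        (t : ℤ) * (u ^ 4 - t ^ 2) % 8 = a * (b ^ 4 - a ^ 2) % 8 := by
      intro a b h1 h2
      have : (t : ℤ) * (u ^ 4 - t ^ 2) ≡ a * (b ^ 4 - a ^ 2) [ZMOD 8] :=
        h1.mul ((h2.pow 4).sub (h1.pow 2))
      exact this
    have htZ : (t : ℤ) ≡ ((res j % 8 : ℕ) : ℤ) [ZMOD 8] := by
      unfold Int.ModEq
      rw [← ht8]; simp
    have huZ : (u : ℤ) ≡ ((u % 8 : ℕ) : ℤ) [ZMOD 8] := by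
      unfold Int.ModEq; simp
    rw [key _ _ htZ huZ]
    rcases hj with rfl | rfl | rfl | rfl | rfl | rfl <;>
      rcases hu8 with h8 | h8 | h8 | h8 | h8 | h8 | h8 | h8 <;>
      first
      | (exfalso; omega)
      | (rw [h8]; norm_num [res])
  have : ((t * (u ^ 2 - t) * (u ^ 2 + t) : ℕ) : ℤ) % 8 = j := by rw [hmod]; exact hZ
  exact_mod_cast this

end Pool.Agent.W268.CN
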