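import Pool.Agent.W268.CN.Det

/-!
The number of `n > z` whose square divides an integer of `(x, x + L]`. (helper268)
-/

set_option autoImplicit false

namespace Pool.Agent.W268.CN

open Finset

/-- the block: integers `n` in `(P, 2P]` with a multiple of `n^2` in `(x, x + L]` -/
def HasMult (x L n : ℕ) : Prop := ∃ q : ℕ, x < q * n ^ 2 ∧ q * n ^ 2 ≤ x + L

lemma no_three (P L x W a b c : ℕ) (hL : 1 ≤ L) (hP : 1 ≤ P) (hPL : 4 * L ≤ P ^ 2)
    (hxL : 10000 * L ^ 3 ≤ x) (hW : 1 ≤ W) (hW3 : 2 * x ≤ P * W ^ 3) (hWL : 2 * L ≤ W * P)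
    (ha : P < a) (hab : a < b) (hbc : b < c) (hc2 : c ≤ 2 * P) (hg : c - a ≤ P / W)
    (h1 : HasMult x L a) (h2 : HasMult x L b) (h3 : HasMult x L c) : False := by
  obtain ⟨q1, h1, h1'⟩ := h1
  obtain ⟨q2, h2, h2'⟩ := h2
  obtain ⟨q3, h3, h3'⟩ := h3
  have key := three_points P L x a b c q1 q2 q3 hL hP hPL hxL ha hab hbc hc2 h1 h1' h2 h2' h3 h3'
  have hx : 0 < x := by
    have : 0 < L ^ 3 := by positivity
    omega
  have hPR : (0 : ℝ) < P := by exact_mod_cast hP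
  have hxR : (0 : ℝ) < x := by exact_mod_cast hx
  have hLR : (0 : ℝ) < L := by exact_mod_cast hL
  have hWR : (0 : ℝ) < W := by exact_mod_cast hW
  have hgR : (c : ℝ) - a ≤ P / W := by
    have e1 : ((c - a : ℕ) : ℝ) ≤ ((P / W : ℕ) : ℝ) := by exact_mod_cast hg
    rw [Nat.cast_sub (by omega)] at e1
    exact e1.trans Nat.cast_div_le
  have hg0 : 0 ≤ (c : ℝ) - a := by
    have : (a : ℝ) ≤ c := by exact_mod_cast (by omega : a ≤ c)
    linarith
  have hW3R : 2 * (x : ℝ) ≤ P * W ^ 3 := by exact_mod_cast hW3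
  have hWLR : 2 * (L : ℝ) ≤ W * P := by exact_mod_cast hWL
  have k1 : 3 / 4 * ((x : ℝ) / P ^ 4) * ((c : ℝ) - a) ^ 3 ≤ 3 / 8 := by
    have : 3 / 4 * ((x : ℝ) / P ^ 4) * ((c : ℝ) - a) ^ 3 ≤
        3 / 4 * ((x : ℝ) / P ^ 4) * ((P : ℝ) / W) ^ 3 := by
      apply mul_le_mul_of_nonneg_left _ (by positivity)
      exact pow_le_pow_left₀ hg0 hgR 3
    refine this.trans ?_
    have e : 3 / 4 * ((x : ℝ) / P ^ 4) * ((P : ℝ) / W) ^ 3 = 3 / 8 * ((2 * x) / (P * W ^ 3)) := by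
      field_simp; ring
    rw [e]
    have : (2 * (x : ℝ)) / (P * W ^ 3) ≤ 1 := by
      rw [div_le_one (by positivity)]; exact hW3R
    linarith
  have k2 : ((c : ℝ) - a) * L / P ^ 2 ≤ 1 / 2 := by
    have : ((c : ℝ) - a) * L / P ^ 2 ≤ (P / W) * L / P ^ 2 := by
      apply div_le_div_of_nonneg_right _ (by positivity)
      exact mul_le_mul_of_nonneg_right hgR hLR.le
    refine this.trans ?_
    have e : ((P : ℝ) / W) * L / P ^ 2 = 1 / 2 * ((2 * L) / (W * P)) := by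
      field_simp
    rw [e]
    have : (2 * (L : ℝ)) / (W * P) ≤ 1 := by
      rw [div_le_one (by positivity)]; exact hWLR
    linarith
  linarith

open Classical in
/-- one dyadic block -/
lemma block_card (P L x W : ℕ) (hL : 1 ≤ L) (hP : 1 ≤ P) (hPL : 4 * L ≤ P ^ 2)
    (hxL : 10000 * L ^ 3 ≤ x) (hW : 1 ≤ W) (hW3 : 2 * x ≤ P * W ^ 3) (hWL : 2 * L ≤ W * P) :
    ((Ioc P (2 * P)).filter (fun n => HasMult x L n)).card ≤ 2 * W := by
  have hmap : ∀ n ∈ (Ioc P (2 * P)).filter (fun n => HasMult x L n),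
      (n - P - 1) / (P / W + 1) ∈ range W := by
    intro n hn
    simp only [mem_filter, mem_Ioc] at hn
    rw [mem_range]
    apply Nat.div_lt_of_lt_mul
    have h1 : P < (P / W + 1) * W := by
      have := Nat.lt_mul_div_succ P (show 0 < W by omega)
      nlinarith
    omega
  have hfib : ∀ i ∈ range W, (((Ioc P (2 * P)).filter (fun n => HasMult x L n)).filter
      (fun n => (n - P - 1) / (P / W + 1) = i)).card ≤ 2 := by
    intro i _
    by_contra hcon
    push Not at hcon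
    obtain ⟨a, b, c, ha, hb, hc, hab, hac, hbc⟩ := Finset.two_lt_card_iff.mp hcon
    simp only [mem_filter, mem_Ioc] at ha hb hc
    -- distances
    have dist : ∀ u v : ℕ, P < u → P < v → (u - P - 1) / (P / W + 1) = i →
        (v - P - 1) / (P / W + 1) = i → v - u ≤ P / W := by
      intro u v hu hv h1 h2
      have e1 := Nat.div_add_mod (u - P - 1) (P / W + 1)
      have e2 := Nat.div_add_mod (v - P - 1) (P / W + 1)
      have e3 := Nat.mod_lt (u - P - 1) (Nat.succ_pos (P / W))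
      have e4 := Nat.mod_lt (v - P - 1) (Nat.succ_pos (P / W))
      have e4' := Nat.mod_lt (v - P - 1) (Nat.succ_pos (P / W))
      rw [h1] at e1
      rw [h2] at e2
      generalize P / W = G at *
      generalize (G + 1) * i = M at e1 e2
      generalize (u - P - 1) % (G + 1) = r1 at *
      generalize (v - P - 1) % (G + 1) = r2 at *
      omega
    have nt := no_three P L x W
    rcases lt_or_gt_of_ne hab with h1 | h1 <;> rcases lt_or_gt_of_ne hac with h2 | h2 <;>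
      rcases lt_or_gt_of_ne hbc with h3 | h3
    · exact nt a b c hL hP hPL hxL hW hW3 hWL ha.1.1.1 h1 h3 hc.1.1.2
        (dist a c ha.1.1.1 hc.1.1.1 ha.2 hc.2) ha.1.2 hb.1.2 hc.1.2
    · exact nt a c b hL hP hPL hxL hW hW3 hWL ha.1.1.1 h2 h3 hb.1.1.2
        (dist a b ha.1.1.1 hb.1.1.1 ha.2 hb.2) ha.1.2 hc.1.2 hb.1.2
    · omega
    · exact nt c a b hL hP hPL hxL hW hW3 hWL hc.1.1.1 h2 h1 hb.1.1.2
        (dist c b hc.1.1.1 hb.1.1.1 hc.2 hb.2) hc.1.2 ha.1.2 hb.1.2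
    · exact nt b a c hL hP hPL hxL hW hW3 hWL hb.1.1.1 h1 h2 hc.1.1.2
        (dist b c hb.1.1.1 hc.1.1.1 hb.2 hc.2) hb.1.2 ha.1.2 hc.1.2
    · omega
    · exact nt b c a hL hP hPL hxL hW hW3 hWL hb.1.1.1 h3 h2 ha.1.1.2
        (dist b a hb.1.1.1 ha.1.1.1 hb.2 ha.2) hb.1.2 hc.1.2 ha.1.2
    · exact nt c b a hL hP hPL hxL hW hW3 hWL hc.1.1.1 h3 h1 ha.1.1.2
        (dist c a hc.1.1.1 ha.1.1.1 hc.2 ha.2) hc.1.2 hb.1.2 ha.1.2
  have := Finset.card_le_mul_card_image_of_maps_to hmap 2 hfib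
  rw [card_range] at this
  exact this

open Classical in
/-- all `n > z` -/
theorem large_card (z L x W I : ℕ) (hL : 1 ≤ L) (hz : 1 ≤ z) (hzL : 4 * L ≤ z ^ 2)
    (hxL : 10000 * L ^ 3 ≤ x) (hW : 1 ≤ W) (hW3 : 2 * x ≤ z * W ^ 3) (hWL : 2 * L ≤ W * z)
    (hI : x + L ≤ 2 ^ I) :
    ((Ioc z (x + L)).filter (fun n => HasMult x L n)).card ≤ I * (2 * W) := by
  have hcov : (Ioc z (x + L)).filter (fun n => HasMult x L n) ⊆
      (range I).biUnion (fun i => (Ioc (z * 2 ^ i) (2 * (z * 2 ^ i))).filter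
        (fun n => HasMult x L n)) := by
    intro n hn
    simp only [mem_filter, mem_Ioc] at hn
    obtain ⟨⟨hn1, hn2⟩, hn3⟩ := hn
    have hex : ∃ i, n ≤ z * 2 ^ (i + 1) := by
      refine ⟨n, ?_⟩
      have h1 : n < 2 ^ n := Nat.lt_two_pow_self
      have h2 : 2 ^ n ≤ 2 ^ (n + 1) := Nat.pow_le_pow_right (by norm_num) (by omega)
      have h3 : 2 ^ (n + 1) ≤ z * 2 ^ (n + 1) := Nat.le_mul_of_pos_left _ hz
      omega
    classical
    obtain ⟨i, hi1, hi2⟩ : ∃ i, z * 2 ^ i < n ∧ n ≤ z * 2 ^ (i + 1) := by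
      refine ⟨Nat.find hex, ?_, Nat.find_spec hex⟩
      rcases Nat.eq_zero_or_pos (Nat.find hex) with h0 | h0
      · rw [h0]; simpa using hn1
      · have := Nat.find_min hex (m := Nat.find hex - 1) (by omega)
        rw [Nat.sub_add_cancel h0] at this
        omega
    have hiI : i < I := by
      have h1 : z * 2 ^ i < 2 ^ I := by omega
      have h2 : 2 ^ i ≤ z * 2 ^ i := Nat.le_mul_of_pos_left _ hz
      have h3 : 2 ^ i < 2 ^ I := lt_of_le_of_lt h2 h1
      exact (Nat.pow_lt_pow_iff_right (by norm_num)).mp h3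
    simp only [mem_biUnion, mem_range, mem_filter, mem_Ioc]
    refine ⟨i, hiI, ⟨hi1, ?_⟩, hn3⟩
    calc n ≤ z * 2 ^ (i + 1) := hi2
      _ = 2 * (z * 2 ^ i) := by ring
  refine (card_le_card hcov).trans (card_biUnion_le.trans ?_)
  calc ∑ i ∈ range I, ((Ioc (z * 2 ^ i) (2 * (z * 2 ^ i))).filter
        (fun n => HasMult x L n)).card ≤ ∑ i ∈ range I, 2 * W := by
        apply Finset.sum_le_sum
        intro i _
        have hz2 : z ≤ z * 2 ^ i := Nat.le_mul_of_pos_right _ (by positivity)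
        apply block_card (z * 2 ^ i) L x W hL (by omega) _ hxL hW _ _
        · exact hzL.trans (Nat.pow_le_pow_left hz2 2)
        · exact hW3.trans (Nat.mul_le_mul_right _ hz2)
        · exact hWL.trans (Nat.mul_le_mul_left _ hz2)
    _ = I * (2 * W) := by rw [sum_const, card_range, smul_eq_mul]

open Classical in
/-- indices `k < K` for which a value `F k` in `(x, x+L]` is divisible by a large square -/
theorem large_index (z L x W I K : ℕ) (F : ℕ → ℕ) (hL : 1 ≤ L) (hz : 1 ≤ z)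
    (hzL : 4 * L ≤ z ^ 2)
    (hxL : 10000 * L ^ 3 ≤ x) (hW : 1 ≤ W) (hW3 : 2 * x ≤ z * W ^ 3) (hWL : 2 * L ≤ W * z)
    (hI : x + L ≤ 2 ^ I) (hF : ∀ k < K, x < F k ∧ F k ≤ x + L)
    (hinj : ∀ k < K, ∀ l < K, F k = F l → k = l) :
    ((range K).filter (fun k => ∃ n, z < n ∧ n ^ 2 ∣ F k)).card ≤ I * (2 * W) := by
  refine le_trans ?_ (large_card z L x W I hL hz hzL hxL hW hW3 hWL hI)
  -- choose n
  have hch : ∀ k ∈ (range K).filter (fun k => ∃ n, z < n ∧ n ^ 2 ∣ F k),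
      ∃ n, z < n ∧ n ^ 2 ∣ F k := by
    intro k hk
    exact (mem_filter.mp hk).2
  choose! f hf using hch
  apply Finset.card_le_card_of_injOn f
  · intro k hk
    have hk' := hk
    simp only [coe_filter, mem_range, Set.mem_ofPred_eq] at hk'
    obtain ⟨h1, h2⟩ := hf k hk
    obtain ⟨h3, h4⟩ := hF k hk'.1
    obtain ⟨q, hq⟩ := h2
    simp only [coe_filter, mem_Ioc, Set.mem_ofPred_eq]
    refine ⟨⟨h1, ?_⟩, q, ?_, ?_⟩
    · have h5 : f k ^ 2 ≤ F k := Nat.le_of_dvd (by omega) ⟨q, hq⟩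
      have h6 : f k ≤ f k ^ 2 := Nat.le_self_pow (by norm_num) _
      omega
    · rw [mul_comm, ← hq]; exact h3
    · rw [mul_comm, ← hq]; exact h4
  · intro k hk l hl hkl
    have hk' := hk
    have hl' := hl
    simp only [coe_filter, mem_range, Set.mem_ofPred_eq] at hk' hl'
    obtain ⟨h1, h2⟩ := hf k hk
    obtain ⟨h1', h2'⟩ := hf l hl
    rw [← hkl] at h2'
    obtain ⟨h3, h4⟩ := hF k hk'.1
    obtain ⟨h3', h4'⟩ := hF l hl'.1
    apply hinj k hk'.1 l hl'.1
    have hn2 : L < f k ^ 2 := by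
      have : z ^ 2 ≤ f k ^ 2 := Nat.pow_le_pow_left h1.le 2
      omega
    have key : ∀ a b : ℕ, a ≤ b → b < a + f k ^ 2 → f k ^ 2 ∣ a → f k ^ 2 ∣ b → a = b := by
      intro a b hab hb2 ha hb
      have h := Nat.dvd_sub hb ha
      rcases Nat.eq_zero_or_pos (b - a) with h0 | h0
      · omega
      · have := Nat.le_of_dvd h0 h
        omega
    rcases le_total (F k) (F l) with h | h
    · exact key _ _ h (by omega) h2 h2'
    · exact (key _ _ h (by omega) h2' h2).symm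

end Pool.Agent.W268.CN
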