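import Pool.Agent.W268.CN.Block

/-!
The sieve: an index `k < K` with `t = a + 72 k` such that no square of a prime `p ≥ 5` divides
`t`, `u^2 - t` or `u^2 + t`, and no prime `p ≥ 5` divides both `u` and `t`. (helper268)
-/

set_option autoImplicit false

namespace Pool.Agent.W268.CN

open Finset

/-- pairwise congruent indices below `K` -/
lemma class_card (q K : ℕ) (S : Finset ℕ) (hS : S ⊆ range K)
    (hc : ∀ a ∈ S, ∀ b ∈ S, a ≡ b [MOD q]) : S.card ≤ K / q + 1 := by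
  have hinj : Set.InjOn (fun k => k / q) (S : Set ℕ) := by
    intro a ha b hb hab
    have h1 := hc a ha b hb
    have h2 := Nat.div_add_mod a q
    have h3 := Nat.div_add_mod b q
    simp only at hab
    unfold Nat.ModEq at h1
    rw [← h2, ← h3, hab, h1]
  calc S.card = (S.image (fun k => k / q)).card := (card_image_of_injOn hinj).symm
    _ ≤ (range (K / q + 1)).card := by
        apply card_le_card
        intro i hi
        obtain ⟨k, hk, rfl⟩ := mem_image.mp hi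
        rw [mem_range, Nat.lt_succ_iff]
        have := mem_range.mp (hS hk)
        exact Nat.div_le_div_right this.le
    _ = K / q + 1 := card_range _

lemma tele5 (z : ℕ) (hz : 4 ≤ z) : ∑ n ∈ Icc 5 z, (1 : ℝ) / (n : ℝ) ^ 2 ≤ 1 / 4 - 1 / z := by
  induction z, hz using Nat.le_induction with
  | base => norm_num
  | succ z hz ih =>
    rw [Finset.sum_Icc_succ_top (by omega)]
    have hz0 : (0 : ℝ) < z := by
      have : 0 < z := by omega
      exact_mod_cast this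
    have h : (1 : ℝ) / ((z + 1 : ℕ) : ℝ) ^ 2 ≤ 1 / z - 1 / ((z + 1 : ℕ) : ℝ) := by
      push_cast
      have e : (1 : ℝ) / z - 1 / (z + 1) = 1 / (z * (z + 1)) := by field_simp; ring
      rw [e]
      apply one_div_le_one_div_of_le (by positivity)
      nlinarith
    linarith

/-- the sum over small squares -/
lemma small_sum (K z : ℕ) (hz : 4 ≤ z) :
    ((∑ n ∈ Icc 5 z, (K / n ^ 2 + 1) : ℕ) : ℝ) ≤ K / 4 + z := by
  push_cast
  rw [Finset.sum_add_distrib]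
  have h1 : ∑ n ∈ Icc 5 z, ((K / n ^ 2 : ℕ) : ℝ) ≤ ∑ n ∈ Icc 5 z, (K : ℝ) * (1 / (n : ℝ) ^ 2) := by
    apply Finset.sum_le_sum
    intro n _
    refine Nat.cast_div_le.trans (le_of_eq ?_)
    push_cast; ring
  rw [← Finset.mul_sum] at h1
  have h2 := tele5 z hz
  have hz0 : (0 : ℝ) < z := by
    have : 0 < z := by omega
    exact_mod_cast this
  have h3 : (0 : ℝ) < 1 / z := by positivity
  have h4 : (K : ℝ) * ∑ n ∈ Icc 5 z, (1 : ℝ) / (n : ℝ) ^ 2 ≤ K * (1 / 4) :=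
    mul_le_mul_of_nonneg_left (by linarith) (Nat.cast_nonneg _)
  have h5 : ∑ n ∈ Icc 5 z, (1 : ℝ) ≤ z := by
    rw [sum_const, Nat.card_Icc, nsmul_eq_mul, mul_one]
    exact_mod_cast (by omega : z + 1 - 5 ≤ z)
  linarith

open Classical in
/-- indices for which one form is divisible by the square of a prime `p ≥ 5` -/
lemma one_form (z L x W I K : ℕ) (F : ℕ → ℕ) (hL : 1 ≤ L) (hz : 1 ≤ z)
    (hzL : 4 * L ≤ z ^ 2)
    (hxL : 10000 * L ^ 3 ≤ x) (hW : 1 ≤ W) (hW3 : 2 * x ≤ z * W ^ 3) (hWL : 2 * L ≤ W * z)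
    (hI : x + L ≤ 2 ^ I) (hF : ∀ k < K, x < F k ∧ F k ≤ x + L)
    (hinj : ∀ k < K, ∀ l < K, F k = F l → k = l)
    (hcong : ∀ q, Nat.Coprime q 72 → ∀ k < K, ∀ l < K, q ∣ F k → q ∣ F l → k ≡ l [MOD q]) :
    ((range K).filter (fun k => ∃ p, p.Prime ∧ 5 ≤ p ∧ p ^ 2 ∣ F k)).card ≤
      (∑ n ∈ Icc 5 z, (K / n ^ 2 + 1)) + I * (2 * W) := by
  have hcov : (range K).filter (fun k => ∃ p, p.Prime ∧ 5 ≤ p ∧ p ^ 2 ∣ F k) ⊆
      ((Icc 5 z).biUnion (fun n => (range K).filter (fun k => n.Prime ∧ n ^ 2 ∣ F k))) ∪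
      ((range K).filter (fun k => ∃ n, z < n ∧ n ^ 2 ∣ F k)) := by
    intro k hk
    simp only [mem_filter, mem_range] at hk
    obtain ⟨hk, p, hp, hp5, hd⟩ := hk
    simp only [mem_union, mem_biUnion, mem_Icc, mem_filter, mem_range]
    by_cases h : p ≤ z
    · exact Or.inl ⟨p, ⟨hp5, h⟩, hk, hp, hd⟩
    · exact Or.inr ⟨hk, p, by omega, hd⟩
  refine (card_le_card hcov).trans ((card_union_le _ _).trans ?_)
  apply Nat.add_le_add
  · refine card_biUnion_le.trans ?_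
    apply Finset.sum_le_sum
    intro n hn
    have hn5 : 5 ≤ n := (mem_Icc.mp hn).1
    apply class_card (n ^ 2) K _ (filter_subset _ _)
    intro a ha b hb
    simp only [mem_filter, mem_range] at ha hb
    have hcop : Nat.Coprime (n ^ 2) 72 := by
      have h72 : (72 : ℕ) = 2 ^ 3 * 3 ^ 2 := by norm_num
      have h2 : Nat.Coprime n 2 := (Nat.coprime_primes ha.2.1 Nat.prime_two).mpr (by omega)
      have h3 : Nat.Coprime n 3 := (Nat.coprime_primes ha.2.1 Nat.prime_three).mpr (by omega)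
      rw [h72]
      apply Nat.Coprime.mul_right
      · exact Nat.Coprime.pow 2 3 h2
      · exact Nat.Coprime.pow 2 2 h3
    exact hcong (n ^ 2) hcop a ha.1 b hb.1 ha.2.2 hb.2.2
  · exact large_index z L x W I K F hL hz hzL hxL hW hW3 hWL hI hF hinj

open Classical in
/-- indices for which `u` and `a + 72 k` have a common prime factor `p ≥ 5` -/
lemma common (u a K y : ℕ) (hy0 : 0 < y) (hu : u ≠ 0)
    (hy : ∀ p, p.Prime → 5 ≤ p → p ∣ u → y < p) :
    ((range K).filter (fun k => ∃ p, p.Prime ∧ 5 ≤ p ∧ p ∣ u ∧ p ∣ a + 72 * k)).card ≤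
      ((u.primeFactors).filter (fun p => 5 ≤ p)).card * (K / y + 1) := by
  have hcov : (range K).filter (fun k => ∃ p, p.Prime ∧ 5 ≤ p ∧ p ∣ u ∧ p ∣ a + 72 * k) ⊆
      ((u.primeFactors).filter (fun p => 5 ≤ p)).biUnion
        (fun p => (range K).filter (fun k => p ∣ a + 72 * k)) := by
    intro k hk
    simp only [mem_filter, mem_range] at hk
    obtain ⟨hk, p, hp, hp5, hpu, hd⟩ := hk
    simp only [mem_biUnion, mem_filter, mem_range]
    exact ⟨p, ⟨Nat.mem_primeFactors.mpr ⟨hp, hpu, hu⟩, hp5⟩, hk, hd⟩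
  refine (card_le_card hcov).trans (card_biUnion_le.trans ?_)
  rw [← smul_eq_mul, ← Finset.sum_const]
  apply Finset.sum_le_sum
  intro p hp
  simp only [mem_filter] at hp
  obtain ⟨hp1, hp5⟩ := hp
  have hp' := Nat.prime_of_mem_primeFactors hp1
  have hpu := Nat.dvd_of_mem_primeFactors hp1
  have hyp := hy p hp' hp5 hpu
  have h1 : ((range K).filter (fun k => p ∣ a + 72 * k)).card ≤ K / p + 1 := by
    apply class_card p K _ (filter_subset _ _)
    intro k hk l hl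
    simp only [mem_filter, mem_range] at hk hl
    have h2 : Nat.Coprime p 2 := (Nat.coprime_primes hp' Nat.prime_two).mpr (by omega)
    have h3 : Nat.Coprime p 3 := (Nat.coprime_primes hp' Nat.prime_three).mpr (by omega)
    have hcop : Nat.Coprime p 72 := by
      have h72 : (72 : ℕ) = 2 ^ 3 * 3 ^ 2 := by norm_num
      rw [h72]
      exact Nat.Coprime.mul_right (h2.pow_right 3) (h3.pow_right 2)
    have e1 : a + 72 * k ≡ a + 72 * l [MOD p] :=
      ((Nat.modEq_zero_iff_dvd).mpr hk.2).trans ((Nat.modEq_zero_iff_dvd).mpr hl.2).symm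
    have e2 : 72 * k ≡ 72 * l [MOD p] := Nat.ModEq.add_left_cancel' a e1
    exact Nat.ModEq.cancel_left_of_coprime (by rw [Nat.Coprime] at hcop; exact hcop) e2
  refine h1.trans ?_
  have : K / p ≤ K / y := Nat.div_le_div_left hyp.le hy0
  omega

/-- the sieve -/
theorem sieve (u a K y z W I : ℕ) (hy0 : 0 < y) (hu : u ≠ 0)
    (hy : ∀ p, p.Prime → 5 ≤ p → p ∣ u → y < p)
    (hom : 20 * ((u.primeFactors).filter (fun p => 5 ≤ p)).card ≤ y)
    (hom2 : 100 * ((u.primeFactors).filter (fun p => 5 ≤ p)).card ≤ K)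
    (hz4 : 4 ≤ z) (hzK : 100 * z ≤ K) (hzL : 4 * (72 * K) ≤ z ^ 2)
    (ha : 10000 * (72 * K) ^ 3 < a) (ha2 : a + 72 * K + 10000 * (72 * K) ^ 3 ≤ u ^ 2)
    (hW : 1 ≤ W) (hW3 : 2 * (u ^ 2 + a) ≤ z * W ^ 3) (hWL : 2 * (72 * K) ≤ W * z)
    (hI : u ^ 2 + a + 72 * K ≤ 2 ^ I) (hIW : 120 * (I * W) ≤ K) :
    ∃ k < K, ∀ p, p.Prime → 5 ≤ p → ¬ p ^ 2 ∣ a + 72 * k ∧ ¬ p ^ 2 ∣ u ^ 2 - (a + 72 * k) ∧
      ¬ p ^ 2 ∣ u ^ 2 + (a + 72 * k) ∧ (p ∣ u → ¬ p ∣ a + 72 * k) := by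
  classical
  by_contra hcon
  push Not at hcon
  have hK1 : 1 ≤ K := by omega
  have hcov : range K ⊆
      (((range K).filter (fun k => ∃ p, p.Prime ∧ 5 ≤ p ∧ p ^ 2 ∣ a + 72 * k)) ∪
      ((range K).filter (fun k => ∃ p, p.Prime ∧ 5 ≤ p ∧ p ^ 2 ∣ u ^ 2 - (a + 72 * k)))) ∪
      (((range K).filter (fun k => ∃ p, p.Prime ∧ 5 ≤ p ∧ p ^ 2 ∣ u ^ 2 + (a + 72 * k))) ∪
      ((range K).filter (fun k => ∃ p, p.Prime ∧ 5 ≤ p ∧ p ∣ u ∧ p ∣ a + 72 * k))) := by
    intro k hk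
    obtain ⟨p, hp, hp5, hd⟩ := hcon k (mem_range.mp hk)
    simp only [mem_union, mem_filter]
    by_cases h1 : p ^ 2 ∣ a + 72 * k
    · exact Or.inl (Or.inl ⟨hk, p, hp, hp5, h1⟩)
    by_cases h2 : p ^ 2 ∣ u ^ 2 - (a + 72 * k)
    · exact Or.inl (Or.inr ⟨hk, p, hp, hp5, h2⟩)
    by_cases h3 : p ^ 2 ∣ u ^ 2 + (a + 72 * k)
    · exact Or.inr (Or.inl ⟨hk, p, hp, hp5, h3⟩)
    have h4 := hd h1 h2 h3
    exact Or.inr (Or.inr ⟨hk, p, hp, hp5, h4.1, h4.2⟩)
  have hcard := card_le_card hcov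
  rw [card_range] at hcard
  have f1 := one_form z (72 * K) (a - 1) W I K (fun k => a + 72 * k) (by omega) (by omega) hzL
    (by omega) hW (by omega) hWL (by omega)
    (by intro k hk; constructor <;> omega)
    (by intro k hk l hl h; omega)
    (by
      intro q hq k _ l _ h1 h2
      have e1 : a + 72 * k ≡ a + 72 * l [MOD q] :=
        ((Nat.modEq_zero_iff_dvd).mpr h1).trans ((Nat.modEq_zero_iff_dvd).mpr h2).symm
      have e2 : 72 * k ≡ 72 * l [MOD q] := Nat.ModEq.add_left_cancel' a e1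
      exact Nat.ModEq.cancel_left_of_coprime hq e2)
  have f2 := one_form z (72 * K) (u ^ 2 - a - 72 * K) W I K (fun k => u ^ 2 - (a + 72 * k))
    (by omega) (by omega) hzL (by omega) hW (by omega) hWL (by omega)
    (by intro k hk; constructor <;> omega)
    (by intro k hk l hl h; omega)
    (by
      intro q hq k hk l hl h1 h2
      -- (a + 72 k) ≡ u^2
      have e1 : a + 72 * k ≡ u ^ 2 [MOD q] := (Nat.modEq_iff_dvd' (by omega)).mpr h1
      have e1' : a + 72 * l ≡ u ^ 2 [MOD q] := (Nat.modEq_iff_dvd' (by omega)).mpr h2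
      have e2 : 72 * k ≡ 72 * l [MOD q] := Nat.ModEq.add_left_cancel' a (e1.trans e1'.symm)
      exact Nat.ModEq.cancel_left_of_coprime hq e2)
  have f3 := one_form z (72 * K) (u ^ 2 + a - 1) W I K (fun k => u ^ 2 + (a + 72 * k))
    (by omega) (by omega) hzL (by omega) hW (by omega) hWL (by omega)
    (by intro k hk; constructor <;> omega)
    (by intro k hk l hl h; omega)
    (by
      intro q hq k _ l _ h1 h2
      have e1 : u ^ 2 + (a + 72 * k) ≡ u ^ 2 + (a + 72 * l) [MOD q] :=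
        ((Nat.modEq_zero_iff_dvd).mpr h1).trans ((Nat.modEq_zero_iff_dvd).mpr h2).symm
      have e2 : 72 * k ≡ 72 * l [MOD q] :=
        Nat.ModEq.add_left_cancel' a (Nat.ModEq.add_left_cancel' _ e1)
      exact Nat.ModEq.cancel_left_of_coprime hq e2)
  have f4 := common u a K y hy0 hu hy
  set om := ((u.primeFactors).filter (fun p => 5 ≤ p)).card with homdef
  have s1 := small_sum K z hz4
  set S5 := ∑ n ∈ Icc 5 z, (K / n ^ 2 + 1) with hS5
  have hc1 := card_union_le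
    (((range K).filter (fun k => ∃ p, p.Prime ∧ 5 ≤ p ∧ p ^ 2 ∣ a + 72 * k)) ∪
      ((range K).filter (fun k => ∃ p, p.Prime ∧ 5 ≤ p ∧ p ^ 2 ∣ u ^ 2 - (a + 72 * k))))
    (((range K).filter (fun k => ∃ p, p.Prime ∧ 5 ≤ p ∧ p ^ 2 ∣ u ^ 2 + (a + 72 * k))) ∪
      ((range K).filter (fun k => ∃ p, p.Prime ∧ 5 ≤ p ∧ p ∣ u ∧ p ∣ a + 72 * k)))
  have hc2 := card_union_le
    ((range K).filter (fun k => ∃ p, p.Prime ∧ 5 ≤ p ∧ p ^ 2 ∣ a + 72 * k))
    ((range K).filter (fun k => ∃ p, p.Prime ∧ 5 ≤ p ∧ p ^ 2 ∣ u ^ 2 - (a + 72 * k)))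
  have hc3 := card_union_le
    ((range K).filter (fun k => ∃ p, p.Prime ∧ 5 ≤ p ∧ p ^ 2 ∣ u ^ 2 + (a + 72 * k)))
    ((range K).filter (fun k => ∃ p, p.Prime ∧ 5 ≤ p ∧ p ∣ u ∧ p ∣ a + 72 * k))
  have total : K ≤ 3 * (S5 + I * (2 * W)) + om * (K / y + 1) := by
    omega
  have totalR : (K : ℝ) ≤ 3 * ((S5 : ℝ) + I * (2 * W)) + om * ((K / y : ℕ) + 1) := by
    exact_mod_cast total
  have hyR : (0 : ℝ) < y := by exact_mod_cast hy0
  have hKR : (1 : ℝ) ≤ K := by exact_mod_cast hK1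
  have g1 : (om : ℝ) * ((K / y : ℕ) : ℝ) ≤ K / 20 := by
    have h1 : ((K / y : ℕ) : ℝ) ≤ (K : ℝ) / y := Nat.cast_div_le
    have h2 : 20 * (om : ℝ) ≤ y := by exact_mod_cast hom
    have h3 : (om : ℝ) * ((K / y : ℕ) : ℝ) ≤ (y / 20) * ((K : ℝ) / y) :=
      mul_le_mul (by linarith) h1 (Nat.cast_nonneg _) (by positivity)
    have h4 : ((y : ℝ) / 20) * ((K : ℝ) / y) = K / 20 := by field_simp
    linarith
  have g2 : 100 * (om : ℝ) ≤ K := by exact_mod_cast hom2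
  have g3 : 100 * (z : ℝ) ≤ K := by exact_mod_cast hzK
  have g4 : 120 * ((I : ℝ) * W) ≤ K := by exact_mod_cast hIW
  nlinarith

end Pool.Agent.W268.CN
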