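import Mathlib

/-!
The window: choice of `u` and of the range of `t` for `d = u^4 t - t^3`. (helper268)
-/

set_option autoImplicit false

namespace Pool.Agent.W268.CN

lemma kappa_bounds (κ : ℝ) (h0 : 0 < κ) (h : 3 * κ ^ 2 = 1) : 0.57 < κ ∧ κ < 0.58 := by
  constructor
  · by_contra hc
    push Not at hc
    nlinarith
  · by_contra hc
    push Not at hc
    nlinarith

lemma pow6_diff (a b : ℝ) (ha : 0 ≤ a) (hab : a ≤ b) : b ^ 6 - a ^ 6 ≤ 6 * (b - a) * b ^ 5 := by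
  have hb : 0 ≤ b := ha.trans hab
  have e : b ^ 6 - a ^ 6 = (b - a) * (b ^ 5 + b ^ 4 * a + b ^ 3 * a ^ 2 + b ^ 2 * a ^ 3 +
    b * a ^ 4 + a ^ 5) := by ring
  have h1 : b ^ 4 * a ≤ b ^ 4 * b := mul_le_mul_of_nonneg_left hab (by positivity)
  have h2 : b ^ 3 * a ^ 2 ≤ b ^ 3 * b ^ 2 :=
    mul_le_mul_of_nonneg_left (pow_le_pow_left₀ ha hab 2) (by positivity)
  have h3 : b ^ 2 * a ^ 3 ≤ b ^ 2 * b ^ 3 :=
    mul_le_mul_of_nonneg_left (pow_le_pow_left₀ ha hab 3) (by positivity)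
  have h4 : b * a ^ 4 ≤ b * b ^ 4 :=
    mul_le_mul_of_nonneg_left (pow_le_pow_left₀ ha hab 4) (by positivity)
  have h5 : a ^ 5 ≤ b ^ 5 := pow_le_pow_left₀ ha hab 5
  have h6 : b ^ 5 + b ^ 4 * a + b ^ 3 * a ^ 2 + b ^ 2 * a ^ 3 + b * a ^ 4 + a ^ 5 ≤ 6 * b ^ 5 := by
    nlinarith
  rw [e]
  have h7 : (b - a) * (b ^ 5 + b ^ 4 * a + b ^ 3 * a ^ 2 + b ^ 2 * a ^ 3 + b * a ^ 4 + a ^ 5) ≤
      (b - a) * (6 * b ^ 5) := mul_le_mul_of_nonneg_left h6 (by linarith)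
  linarith

/-- choice of `u = s (P m + 1)` -/
lemma choose_u (X κ : ℝ) (hX : 0 < X) (h0 : 0 < κ) (hκ : 3 * κ ^ 2 = 1) (P s : ℕ) (hP : 1 ≤ P)
    (hs : s = 1 ∨ s = 2) :
    ∃ m : ℕ, X + ((s * (P * m + 1) : ℕ) : ℝ) ^ 5 ≤ 2 / 3 * κ * ((s * (P * m + 1) : ℕ) : ℝ) ^ 6 ∧
      2 / 3 * κ * ((s * (P * m + 1) : ℕ) : ℝ) ^ 6 ≤
        X + 6 * P * ((s * (P * m + 1) : ℕ) : ℝ) ^ 5 := by
  classical
  obtain ⟨k1, k2⟩ := kappa_bounds κ h0 hκ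
  have hs1 : 1 ≤ s := by rcases hs with rfl | rfl <;> norm_num
  have hs2 : s ≤ 2 := by rcases hs with rfl | rfl <;> norm_num
  have hex : ∃ m : ℕ, X + ((s * (P * m + 1) : ℕ) : ℝ) ^ 5 ≤
      2 / 3 * κ * ((s * (P * m + 1) : ℕ) : ℝ) ^ 6 := by
    refine ⟨⌈X⌉₊ + 6, ?_⟩
    set v : ℝ := ((s * (P * (⌈X⌉₊ + 6) + 1) : ℕ) : ℝ) with hv
    have hv1 : X + 6 ≤ v := by
      have e1 : ⌈X⌉₊ + 6 ≤ s * (P * (⌈X⌉₊ + 6) + 1) := by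
        calc ⌈X⌉₊ + 6 ≤ P * (⌈X⌉₊ + 6) := Nat.le_mul_of_pos_left _ hP
          _ ≤ P * (⌈X⌉₊ + 6) + 1 := Nat.le_succ _
          _ ≤ s * (P * (⌈X⌉₊ + 6) + 1) := Nat.le_mul_of_pos_left _ hs1
      have e2 : ((⌈X⌉₊ + 6 : ℕ) : ℝ) ≤ v := by rw [hv]; exact_mod_cast e1
      have e3 : X ≤ (⌈X⌉₊ : ℝ) := Nat.le_ceil X
      push_cast at e2
      linarith
    have hv0 : 0 < v := by linarith
    have h5 : v ≤ v ^ 5 := le_self_pow₀ (by linarith) (by norm_num)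
    have h6 : 2 * v ^ 5 ≤ 2 / 3 * κ * v ^ 6 := by
      have : 2 / 3 * κ * v ^ 6 = (2 / 3 * κ * v) * v ^ 5 := by ring
      rw [this]
      apply mul_le_mul_of_nonneg_right _ (by positivity)
      nlinarith
    linarith
  set m := Nat.find hex with hm
  have hspec := Nat.find_spec hex
  rw [← hm] at hspec
  refine ⟨m, hspec, ?_⟩
  have hm0 : m ≠ 0 := by
    intro h
    rw [h] at hspec
    rcases hs with rfl | rfl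
    · norm_num at hspec
      linarith
    · norm_num at hspec
      linarith
  obtain ⟨n, hn⟩ := Nat.exists_eq_succ_of_ne_zero hm0
  have hmin := Nat.find_min hex (m := n) (by omega)
  push Not at hmin
  rw [hn]
  set a : ℝ := ((s * (P * n + 1) : ℕ) : ℝ) with ha
  set b : ℝ := ((s * (P * (n + 1) + 1) : ℕ) : ℝ) with hb
  have hba : b - a = s * P := by rw [ha, hb]; push_cast; ring
  have hsP : (0 : ℝ) ≤ s * P := by positivity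
  have ha0 : 0 ≤ a := by rw [ha]; positivity
  have hab : a ≤ b := by linarith
  have hb0 : 0 ≤ b := ha0.trans hab
  have hd := pow6_diff a b ha0 hab
  rw [hba] at hd
  have hs2R : (s : ℝ) ≤ 2 := by exact_mod_cast hs2
  have hPR : (1 : ℝ) ≤ P := by exact_mod_cast hP
  have hb5 : 0 ≤ b ^ 5 := by positivity
  have ha5 : a ^ 5 ≤ b ^ 5 := pow_le_pow_left₀ ha0 hab 5
  have e1 : 2 / 3 * κ * (6 * (s * P) * b ^ 5) ≤ 4.64 * P * b ^ 5 := by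
    have : 2 / 3 * κ * (6 * (s * P) * b ^ 5) = (4 * κ * s) * (P * b ^ 5) := by ring
    rw [this]
    have h1 : 4 * κ * s ≤ 4.64 := by nlinarith
    have h2 : (4 * κ * s) * (P * b ^ 5) ≤ 4.64 * (P * b ^ 5) :=
      mul_le_mul_of_nonneg_right h1 (by positivity)
    linarith
  have e2 : 2 / 3 * κ * (b ^ 6 - a ^ 6) ≤ 2 / 3 * κ * (6 * (s * P) * b ^ 5) :=
    mul_le_mul_of_nonneg_left hd (by positivity)
  have e3 : b ^ 5 ≤ P * b ^ 5 := by nlinarith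
  show 2 / 3 * κ * b ^ 6 ≤ X + 6 * P * b ^ 5
  have e4 : 2 / 3 * κ * (b ^ 6 - a ^ 6) = 2 / 3 * κ * b ^ 6 - 2 / 3 * κ * a ^ 6 := by ring
  nlinarith

lemma slope_up (t0 t1 t : ℝ) (h1 : 0 ≤ t1) (h2 : t1 ≤ t) (h3 : t1 ≤ t0) :
    3 * t0 ^ 2 - t ^ 2 - t * t1 - t1 ^ 2 ≤ 6 * t0 * (t0 - t1) := by
  have b1 : t1 ^ 2 ≤ t * t1 := by nlinarith
  have b2 : t1 ^ 2 ≤ t ^ 2 := pow_le_pow_left₀ h1 h2 2
  have b3 : 3 * (t0 ^ 2 - t1 ^ 2) = 3 * (t0 - t1) * (t0 + t1) := by ring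
  have b4 : 3 * (t0 - t1) * (t0 + t1) ≤ 3 * (t0 - t1) * (t0 + t0) :=
    mul_le_mul_of_nonneg_left (by linarith) (by linarith)
  linarith

lemma slope_low (t0 t2 t : ℝ) (h1 : 0 ≤ t2) (h2 : t2 ≤ t) (h3 : t ≤ t0) :
    0 ≤ 3 * t0 ^ 2 - t ^ 2 - t * t2 - t2 ^ 2 := by
  have b1 : t ^ 2 ≤ t0 ^ 2 := pow_le_pow_left₀ (by linarith) h3 2
  have b2 : t2 ^ 2 ≤ t ^ 2 := pow_le_pow_left₀ h1 h2 2
  have b3 : t * t2 ≤ t * t := mul_le_mul_of_nonneg_left h2 (by linarith)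
  linarith

/-- choice of the range of `t` -/
lemma choose_t (X κ A : ℝ) (hX : 0 < X) (h0 : 0 < κ) (hκ : 3 * κ ^ 2 = 1) (u : ℕ) (hu : 2 ≤ u)
    (h1 : X + (u : ℝ) ^ 5 ≤ 2 / 3 * κ * (u : ℝ) ^ 6)
    (h2 : 2 / 3 * κ * (u : ℝ) ^ 6 ≤ X + A * (u : ℝ) ^ 5) :
    ∃ (t2 : ℕ) (D : ℝ), (t2 : ℝ) = κ * (u : ℝ) ^ 2 - D + 1 ∧ 1 ≤ D ∧
      (u : ℝ) ^ 3 ≤ 2 * D ^ 2 ∧ (D - 1) ^ 2 ≤ A * (u : ℝ) ^ 3 ∧
      ∀ t : ℕ, t2 ≤ t → (t : ℝ) ≤ κ * (u : ℝ) ^ 2 →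
        X ≤ (u : ℝ) ^ 4 * t - (t : ℝ) ^ 3 ∧
        (u : ℝ) ^ 4 * t - (t : ℝ) ^ 3 ≤ X + (t - t2 + 1) * (6 * (κ * (u : ℝ) ^ 2) * D) := by
  classical
  obtain ⟨k1, k2⟩ := kappa_bounds κ h0 hκ
  have huR : (2 : ℝ) ≤ u := by exact_mod_cast hu
  have hu0 : (0 : ℝ) < u := by linarith
  set t0 : ℝ := κ * (u : ℝ) ^ 2 with ht0
  have hu4 : (u : ℝ) ^ 4 = 3 * t0 ^ 2 := by
    rw [ht0]
    have : 3 * (κ * (u : ℝ) ^ 2) ^ 2 = (3 * κ ^ 2) * (u : ℝ) ^ 4 := by ring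
    rw [this, hκ]; ring
  have hmax : 2 / 3 * κ * (u : ℝ) ^ 6 = 2 * t0 ^ 3 := by
    rw [ht0]
    have : 2 * (κ * (u : ℝ) ^ 2) ^ 3 = 2 / 3 * κ * (3 * κ ^ 2) * (u : ℝ) ^ 6 := by ring
    rw [this, hκ]; ring
  rw [hmax] at h1 h2
  have ht00 : 0 < t0 := by positivity
  have hG : ∀ t : ℝ, 2 * t0 ^ 3 - ((u : ℝ) ^ 4 * t - t ^ 3) = (t0 - t) ^ 2 * (2 * t0 + t) := by
    intro t; rw [hu4]; ring
  have hex : ∃ t : ℕ, X ≤ (u : ℝ) ^ 4 * t - (t : ℝ) ^ 3 ∧ (t : ℝ) ≤ t0 := by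
    refine ⟨⌊t0⌋₊, ?_, Nat.floor_le ht00.le⟩
    have f1 : (⌊t0⌋₊ : ℝ) ≤ t0 := Nat.floor_le ht00.le
    have f2 : t0 < (⌊t0⌋₊ : ℝ) + 1 := Nat.lt_floor_add_one t0
    have f3 : (0 : ℝ) ≤ (⌊t0⌋₊ : ℝ) := Nat.cast_nonneg _
    have g := hG (⌊t0⌋₊ : ℝ)
    have g1 : (t0 - (⌊t0⌋₊ : ℝ)) ^ 2 ≤ 1 := by
      have a1 : 0 ≤ t0 - (⌊t0⌋₊ : ℝ) := by linarith
      have a2 : t0 - (⌊t0⌋₊ : ℝ) ≤ 1 := by linarith
      nlinarith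
    have g2 : (t0 - (⌊t0⌋₊ : ℝ)) ^ 2 * (2 * t0 + (⌊t0⌋₊ : ℝ)) ≤ 3 * t0 := by
      calc (t0 - (⌊t0⌋₊ : ℝ)) ^ 2 * (2 * t0 + (⌊t0⌋₊ : ℝ)) ≤ 1 * (2 * t0 + (⌊t0⌋₊ : ℝ)) :=
            mul_le_mul_of_nonneg_right g1 (by positivity)
        _ ≤ 3 * t0 := by linarith
    have g3 : 3 * t0 ≤ (u : ℝ) ^ 5 := by
      rw [ht0]
      have : (u : ℝ) ^ 5 = (u : ℝ) ^ 3 * (u : ℝ) ^ 2 := by ring
      rw [this]
      have h8 : (2 : ℝ) ^ 3 ≤ (u : ℝ) ^ 3 := pow_le_pow_left₀ (by norm_num) huR 3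
      have : 3 * κ ≤ (u : ℝ) ^ 3 := by nlinarith
      nlinarith [sq_nonneg (u : ℝ)]
    linarith
  set t2 := Nat.find hex with ht2
  obtain ⟨hs1, hs2⟩ := Nat.find_spec hex
  rw [← ht2] at hs1 hs2
  have ht2pos : t2 ≠ 0 := by
    intro h
    rw [h] at hs1
    simp at hs1
    linarith
  obtain ⟨t1, ht1⟩ := Nat.exists_eq_succ_of_ne_zero ht2pos
  have hmin := Nat.find_min hex (m := t1) (by omega)
  have ht21 : (t2 : ℝ) = t1 + 1 := by rw [ht1]; push_cast; ring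
  have ht1t0 : (t1 : ℝ) ≤ t0 := by linarith
  have hg1 : (u : ℝ) ^ 4 * t1 - (t1 : ℝ) ^ 3 < X := by
    by_contra hc
    push Not at hc
    exact hmin ⟨hc, ht1t0⟩
  have ht1n : (0 : ℝ) ≤ t1 := Nat.cast_nonneg _
  refine ⟨t2, t0 - t1, by linarith, by linarith, ?_, ?_, ?_⟩
  · -- lower bound for D
    have g := hG (t1 : ℝ)
    have a1 : (t0 - t1) ^ 2 * (2 * t0 + t1) ≤ (t0 - t1) ^ 2 * (3 * t0) :=
      mul_le_mul_of_nonneg_left (by linarith) (by positivity)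
    have a2 : (u : ℝ) ^ 5 ≤ (t0 - t1) ^ 2 * (3 * t0) := by linarith
    have a3 : (u : ℝ) ^ 3 * (u : ℝ) ^ 2 ≤ (2 * (t0 - t1) ^ 2) * (u : ℝ) ^ 2 := by
      calc (u : ℝ) ^ 3 * (u : ℝ) ^ 2 = (u : ℝ) ^ 5 := by ring
        _ ≤ (t0 - t1) ^ 2 * (3 * t0) := a2
        _ = (3 * κ * (t0 - t1) ^ 2) * (u : ℝ) ^ 2 := by rw [ht0]; ring
        _ ≤ (2 * (t0 - t1) ^ 2) * (u : ℝ) ^ 2 := by
            apply mul_le_mul_of_nonneg_right _ (by positivity)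
            nlinarith [sq_nonneg (t0 - t1)]
    exact le_of_mul_le_mul_right a3 (by positivity)
  · -- upper bound for D
    have g := hG (t2 : ℝ)
    have a0 : (0 : ℝ) ≤ t2 := Nat.cast_nonneg _
    have a1 : (t0 - t2) ^ 2 * (2 * t0) ≤ (t0 - t2) ^ 2 * (2 * t0 + t2) :=
      mul_le_mul_of_nonneg_left (by linarith) (by positivity)
    have e : t0 - t1 - 1 = t0 - t2 := by linarith
    rw [e]
    have a2 : (t0 - t2) ^ 2 * (2 * t0) ≤ A * (u : ℝ) ^ 5 := by linarith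
    have a3 : (t0 - t2) ^ 2 * (u : ℝ) ^ 2 ≤ (A * (u : ℝ) ^ 3) * (u : ℝ) ^ 2 := by
      calc (t0 - t2) ^ 2 * (u : ℝ) ^ 2 ≤ (t0 - t2) ^ 2 * (2 * t0) := by
            apply mul_le_mul_of_nonneg_left _ (by positivity)
            rw [ht0]
            nlinarith [sq_nonneg (u : ℝ)]
        _ ≤ A * (u : ℝ) ^ 5 := a2
        _ = (A * (u : ℝ) ^ 3) * (u : ℝ) ^ 2 := by ring
    exact le_of_mul_le_mul_right a3 (by positivity)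
  · intro t ht htt0
    have htR : (t2 : ℝ) ≤ t := by exact_mod_cast ht
    have ht20 : (0 : ℝ) ≤ t2 := Nat.cast_nonneg _
    constructor
    · have e : (u : ℝ) ^ 4 * t - (t : ℝ) ^ 3 - ((u : ℝ) ^ 4 * t2 - (t2 : ℝ) ^ 3) =
        (t - t2) * (3 * t0 ^ 2 - t ^ 2 - t * t2 - t2 ^ 2) := by rw [hu4]; ring
      have h3 := slope_low t0 t2 t ht20 htR htt0
      have h4 : 0 ≤ ((t : ℝ) - t2) * (3 * t0 ^ 2 - t ^ 2 - t * t2 - t2 ^ 2) :=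
        mul_nonneg (by linarith) h3
      linarith
    · have e : (u : ℝ) ^ 4 * t - (t : ℝ) ^ 3 - ((u : ℝ) ^ 4 * t1 - (t1 : ℝ) ^ 3) =
        (t - t1) * (3 * t0 ^ 2 - t ^ 2 - t * t1 - t1 ^ 2) := by rw [hu4]; ring
      have h3 := slope_up t0 t1 t ht1n (by linarith) ht1t0
      have h4 : ((t : ℝ) - t1) * (3 * t0 ^ 2 - t ^ 2 - t * t1 - t1 ^ 2) ≤
          (t - t1) * (6 * t0 * (t0 - t1)) :=
        mul_le_mul_of_nonneg_left h3 (by linarith)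
      have e5 : (t : ℝ) - t2 + 1 = t - t1 := by linarith
      rw [e5]
      linarith

end Pool.Agent.W268.CN
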