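import Pool.Agent.W268.CN.Params
import Pool.Agent.W268.CN.Window
import Pool.Agent.W268.CN.Alg
import Pool.Agent.W268.CN.Sieve

/-!
Squarefree congruent numbers in `[X, X + 4^(2y) u^4]`, `u^6 ≤ 4 X`. (helper268)
-/

set_option autoImplicit false

namespace Pool.Agent.W268.CN

/-- prime factors of `s (P m + 1)` -/
lemma prime_gt (s y m p : ℕ) (hs : s = 1 ∨ s = 2) (hp : p.Prime) (h5 : 5 ≤ p)
    (hd : p ∣ s * (primorial y * m + 1)) : y < p := by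
  by_contra hc
  push Not at hc
  have h1 : p ∣ primorial y := hp.dvd_primorial_iff.mpr hc
  have h2 : p ∣ primorial y * m + 1 := by
    rcases hp.dvd_mul.mp hd with h | h
    · exfalso
      have := Nat.le_of_dvd (by rcases hs with rfl | rfl <;> norm_num) h
      rcases hs with rfl | rfl <;> omega
    · exact h
  have h3 : p ∣ 1 := (Nat.dvd_add_right (h1.mul_right m)).mp h2
  have := hp.two_le
  have := Nat.le_of_dvd (by norm_num) h3
  omega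

/-- size of `u` -/
lemma size_u (X κ T P u : ℝ) (M : ℕ) (hM : 48 ≤ M) (k1 : 0.57 < κ) (k2 : κ < 0.58)
    (hT : 10 ^ 12 ≤ T) (hP : P ≤ T) (hu0 : 0 < u) (hX1 : T ^ M ≤ X)
    (hu1 : X + u ^ 5 ≤ 2 / 3 * κ * u ^ 6) (hu2 : 2 / 3 * κ * u ^ 6 ≤ X + 6 * P * u ^ 5) :
    T ^ 8 ≤ u ∧ u ^ 6 ≤ 4 * X := by
  have hT1 : 1 ≤ T := by linarith [show (1 : ℝ) ≤ 10 ^ 12 by norm_num]
  have h6 : 0 < u ^ 6 := by positivity
  have h5 : 0 < u ^ 5 := by positivity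
  have a1 : X ≤ u ^ 6 := by nlinarith
  have a2 : (T ^ 8) ^ 6 ≤ u ^ 6 := by
    calc (T ^ 8) ^ 6 = T ^ 48 := by ring
      _ ≤ T ^ M := pow_le_pow_right₀ hT1 hM
      _ ≤ X := hX1
      _ ≤ u ^ 6 := a1
  have a3 : T ^ 8 ≤ u := le_of_pow_le_pow_left₀ (by norm_num) hu0.le a2
  refine ⟨a3, ?_⟩
  have a4 : 100 * T ≤ u := by
    calc 100 * T ≤ T * T := by nlinarith
      _ = T ^ 2 := by ring
      _ ≤ T ^ 8 := pow_le_pow_right₀ hT1 (by norm_num)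
      _ ≤ u := a3
  have a5 : 6 * P * u ^ 5 ≤ 0.06 * u ^ 6 := by
    have : 6 * P ≤ 0.06 * u := by linarith
    calc 6 * P * u ^ 5 ≤ 0.06 * u * u ^ 5 := mul_le_mul_of_nonneg_right this h5.le
      _ = 0.06 * u ^ 6 := by ring
  have a6 : 0.38 * u ^ 6 ≤ 2 / 3 * κ * u ^ 6 := by
    apply mul_le_mul_of_nonneg_right _ h6.le
    linarith
  linarith

/-- the final length -/
lemma final_len (K u T D κ R : ℝ) (k2 : κ < 0.58) (hκ : 0 < κ) (hK0 : 0 ≤ K)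
    (hu : 0 < u) (hT : 10 ^ 12 ≤ T) (hK : K ^ 2 ≤ 4 * u * T ^ 2) (hD2 : 2 ≤ D)
    (hD : (D - 1) ^ 2 ≤ 6 * T * u ^ 3) (hR : R ≤ 72 * K) :
    R * (6 * (κ * u ^ 2) * D) ≤ T ^ 2 * u ^ 4 := by
  have hT0 : 0 < T := by linarith [show (0 : ℝ) < 10 ^ 12 by norm_num]
  have hD0 : 0 ≤ D := by linarith
  have a1 : D ^ 2 ≤ 24 * T * u ^ 3 := by nlinarith
  have a2 : R * (6 * (κ * u ^ 2) * D) ≤ 251 * (K * u ^ 2 * D) := by
    have b1 : R * (6 * (κ * u ^ 2) * D) ≤ 72 * K * (6 * (κ * u ^ 2) * D) :=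
      mul_le_mul_of_nonneg_right hR (by positivity)
    have b2 : 72 * K * (6 * (κ * u ^ 2) * D) = (432 * κ) * (K * u ^ 2 * D) := by ring
    have b3 : (432 * κ) * (K * u ^ 2 * D) ≤ 251 * (K * u ^ 2 * D) :=
      mul_le_mul_of_nonneg_right (by linarith) (by positivity)
    linarith
  have a3 : (251 * (K * u ^ 2 * D)) ^ 2 ≤ (T ^ 2 * u ^ 4) ^ 2 := by
    calc (251 * (K * u ^ 2 * D)) ^ 2 = 63001 * u ^ 4 * (K ^ 2 * D ^ 2) := by ring
      _ ≤ 63001 * u ^ 4 * ((4 * u * T ^ 2) * (24 * T * u ^ 3)) := by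
          apply mul_le_mul_of_nonneg_left _ (by positivity)
          exact mul_le_mul hK a1 (by positivity) (by positivity)
      _ = 6048096 * (T ^ 3 * u ^ 8) := by ring
      _ ≤ T * (T ^ 3 * u ^ 8) := by
          apply mul_le_mul_of_nonneg_right _ (by positivity)
          linarith [show (6048096 : ℝ) ≤ 10 ^ 12 by norm_num]
      _ = (T ^ 2 * u ^ 4) ^ 2 := by ring
  exact a2.trans (le_of_sq_le_sq a3 (by positivity))

end Pool.Agent.W268.CN
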