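import Mathlib

/-!
Three integer points close to the curve `q = x / n^2` (n in a dyadic block): they are never
collinear, so the determinant is a nonzero integer and the points are spread out. (helper268)
-/

set_option autoImplicit false

namespace Pool.Agent.W268.CN

/-- the determinant identity -/
lemma det_identity (x a b c d1 d2 d3 q1 q2 q3 : ℝ) (ha : 0 < a) (hb : 0 < b) (hc : 0 < c)
    (h1 : q1 * a ^ 2 = x + d1) (h2 : q2 * b ^ 2 = x + d2) (h3 : q3 * c ^ 2 = x + d3) :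
    q1 * (c - b) - q2 * (c - a) + q3 * (b - a) =
      x * (1 / a + 1 / b + 1 / c) / (a * b * c) * ((b - a) * (c - b)) * (c - a) +
        (d1 / a ^ 2 * (c - b) - d2 / b ^ 2 * (c - a) + d3 / c ^ 2 * (b - a)) := by
  have e1 : q1 = (x + d1) / a ^ 2 := by rw [← h1]; field_simp
  have e2 : q2 = (x + d2) / b ^ 2 := by rw [← h2]; field_simp
  have e3 : q3 = (x + d3) / c ^ 2 := by rw [← h3]; field_simp
  rw [e1, e2, e3]
  field_simp
  ring

/-- bounds for the error term -/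
lemma err_bound (P L a b c d1 d2 d3 : ℝ) (hP : 0 < P) (hL : 0 ≤ L) (ha : P ≤ a) (hab : a ≤ b)
    (hbc : b ≤ c) (h1 : 0 ≤ d1) (h1' : d1 ≤ L) (h2 : 0 ≤ d2) (h2' : d2 ≤ L) (h3 : 0 ≤ d3)
    (h3' : d3 ≤ L) :
    |d1 / a ^ 2 * (c - b) - d2 / b ^ 2 * (c - a) + d3 / c ^ 2 * (b - a)| ≤
      L / P ^ 2 * (c - a) := by
  have hb : P ≤ b := ha.trans hab
  have hc : P ≤ c := hb.trans hbc
  have key : ∀ d n : ℝ, 0 ≤ d → d ≤ L → P ≤ n → 0 ≤ d / n ^ 2 ∧ d / n ^ 2 ≤ L / P ^ 2 := by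
    intro d n hd hd' hn
    refine ⟨div_nonneg hd (by positivity), ?_⟩
    apply div_le_div₀ hL hd' (by positivity)
    exact pow_le_pow_left₀ hP.le hn 2
  obtain ⟨k1, k1'⟩ := key d1 a h1 h1' ha
  obtain ⟨k2, k2'⟩ := key d2 b h2 h2' hb
  obtain ⟨k3, k3'⟩ := key d3 c h3 h3' hc
  rw [abs_le]
  constructor
  · have : d2 / b ^ 2 * (c - a) ≤ L / P ^ 2 * (c - a) :=
      mul_le_mul_of_nonneg_right k2' (by linarith)
    have i1 : 0 ≤ d1 / a ^ 2 * (c - b) := mul_nonneg k1 (by linarith)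
    have i3 : 0 ≤ d3 / c ^ 2 * (b - a) := mul_nonneg k3 (by linarith)
    linarith
  · have i2 : 0 ≤ d2 / b ^ 2 * (c - a) := mul_nonneg k2 (by linarith)
    have i1 : d1 / a ^ 2 * (c - b) ≤ L / P ^ 2 * (c - b) :=
      mul_le_mul_of_nonneg_right k1' (by linarith)
    have i3 : d3 / c ^ 2 * (b - a) ≤ L / P ^ 2 * (b - a) :=
      mul_le_mul_of_nonneg_right k3' (by linarith)
    nlinarith

/-- spacing of two points -/
lemma spacing (P L x a b q1 q2 : ℕ) (hL : 1 ≤ L) (hP : 1 ≤ P) (hPL : 4 * L ≤ P ^ 2)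
    (hxL : 10000 * L ^ 3 ≤ x)
    (ha : P < a) (ha2 : a ≤ 2 * P) (hab : a < b) (hb2 : b ≤ 2 * P)
    (h1 : x < q1 * a ^ 2) (h1' : q1 * a ^ 2 ≤ x + L) (h2 : x < q2 * b ^ 2)
    (h2' : q2 * b ^ 2 ≤ x + L) : 3 * P ^ 3 ≤ 16 * x * (b - a) := by
  have hx : 0 < x := by
    have : 0 < L ^ 3 := by positivity
    omega
  have hq1 : 1 ≤ q1 := by
    rcases Nat.eq_zero_or_pos q1 with h | h
    · subst h; omega
    · exact h
  have hq2 : 1 ≤ q2 := by
    rcases Nat.eq_zero_or_pos q2 with h | h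
    · subst h; omega
    · exact h
  have hL3 : L ≤ L ^ 3 := Nat.le_self_pow (by norm_num) L
  have hL23 : L ^ 2 ≤ L ^ 3 := Nat.pow_le_pow_right hL (by norm_num)
  -- q2 < q1
  have hq : q2 < q1 := by
    by_contra hcon
    push Not at hcon
    have e1 : q1 * a ^ 2 + q1 * (a + b) ≤ q2 * b ^ 2 := by
      calc q1 * a ^ 2 + q1 * (a + b) = q1 * (a ^ 2 + (a + b)) := by ring
        _ ≤ q1 * b ^ 2 := by
            apply Nat.mul_le_mul_left
            nlinarith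
        _ ≤ q2 * b ^ 2 := Nat.mul_le_mul_right _ hcon
    have e2 : q1 * (2 * P) < L := by
      have : q1 * (2 * P) ≤ q1 * (a + b) := Nat.mul_le_mul_left _ (by omega)
      omega
    have e3 : x < 4 * q1 * P ^ 2 := by
      calc x < q1 * a ^ 2 := h1
        _ ≤ q1 * (2 * P) ^ 2 := Nat.mul_le_mul_left _ (Nat.pow_le_pow_left ha2 2)
        _ = 4 * q1 * P ^ 2 := by ring
    have e4 : P ^ 2 ≤ x + L := by
      calc P ^ 2 ≤ a ^ 2 := Nat.pow_le_pow_left ha.le 2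
        _ ≤ q1 * a ^ 2 := Nat.le_mul_of_pos_left _ hq1
        _ ≤ x + L := h1'
    -- x < 2 P L
    have e5 : x < 2 * (P * L) := by
      calc x < 4 * q1 * P ^ 2 := e3
        _ = 2 * (P * (q1 * (2 * P))) := by ring
        _ ≤ 2 * (P * L) := by
            apply Nat.mul_le_mul_left; apply Nat.mul_le_mul_left; exact e2.le
    have e6 : x * x < 8 * x * L ^ 2 := by
      calc x * x < (2 * (P * L)) * (2 * (P * L)) := Nat.mul_lt_mul'' e5 e5
        _ = 4 * P ^ 2 * L ^ 2 := by ring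
        _ ≤ 4 * (2 * x) * L ^ 2 := by
            apply Nat.mul_le_mul_right; apply Nat.mul_le_mul_left; omega
        _ = 8 * x * L ^ 2 := by ring
    have e7 : x < 8 * L ^ 2 := by
      have : x * x < x * (8 * L ^ 2) := by
        calc x * x < 8 * x * L ^ 2 := e6
          _ = x * (8 * L ^ 2) := by ring
      exact Nat.lt_of_mul_lt_mul_left this
    omega
  -- real inequality
  zify [hab.le]
  have hqZ : (q2 : ℤ) + 1 ≤ q1 := by exact_mod_cast hq
  have h1Z : (q1 : ℤ) * a ^ 2 ≤ x + L := by exact_mod_cast h1'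
  have h2Z : (x : ℤ) < q2 * b ^ 2 := by exact_mod_cast h2
  have hPLZ : 4 * (L : ℤ) ≤ P ^ 2 := by exact_mod_cast hPL
  have haZ : (P : ℤ) ≤ a := by exact_mod_cast ha.le
  have hbZ : (P : ℤ) ≤ b := by exact_mod_cast (ha.trans hab).le
  have ha2Z : (a : ℤ) ≤ 2 * P := by exact_mod_cast ha2
  have hb2Z : (b : ℤ) ≤ 2 * P := by exact_mod_cast hb2
  have habZ : (0 : ℤ) ≤ b - a := by have : (a : ℤ) ≤ b := by exact_mod_cast hab.le
                                    linarith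
  have hP0 : (0 : ℤ) < P := by exact_mod_cast hP
  have hx0 : (0 : ℤ) < x := by exact_mod_cast hx
  have hL0 : (0 : ℤ) ≤ L := by positivity
  -- x (b^2 - a^2) + L b^2 ≥ a^2 b^2
  have k1 : (a : ℤ) ^ 2 * b ^ 2 ≤ x * (b ^ 2 - a ^ 2) + L * b ^ 2 := by
    have j1 : ((q2 : ℤ) + 1) * (a ^ 2 * b ^ 2) ≤ q1 * (a ^ 2 * b ^ 2) :=
      mul_le_mul_of_nonneg_right hqZ (by positivity)
    have j2 : (q1 : ℤ) * a ^ 2 * b ^ 2 ≤ (x + L) * b ^ 2 :=
      mul_le_mul_of_nonneg_right h1Z (by positivity)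
    have j3 : (x : ℤ) * a ^ 2 ≤ q2 * b ^ 2 * a ^ 2 :=
      mul_le_mul_of_nonneg_right h2Z.le (by positivity)
    nlinarith
  -- 4 L b^2 ≤ a^2 b^2
  have k2 : 4 * ((L : ℤ) * b ^ 2) ≤ a ^ 2 * b ^ 2 := by
    have : (P : ℤ) ^ 2 ≤ a ^ 2 := pow_le_pow_left₀ hP0.le haZ 2
    have j : 4 * (L : ℤ) * b ^ 2 ≤ a ^ 2 * b ^ 2 :=
      mul_le_mul_of_nonneg_right (hPLZ.trans this) (by positivity)
    linarith
  have k3 : 3 * ((a : ℤ) ^ 2 * b ^ 2) ≤ 4 * (x * (b ^ 2 - a ^ 2)) := by linarith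
  have k4 : (b : ℤ) ^ 2 - a ^ 2 ≤ (b - a) * (4 * P) := by
    have : (b : ℤ) ^ 2 - a ^ 2 = (b - a) * (a + b) := by ring
    rw [this]
    exact mul_le_mul_of_nonneg_left (by linarith) habZ
  have k5 : (P : ℤ) ^ 4 ≤ (a : ℤ) ^ 2 * (b : ℤ) ^ 2 := by
    have e : (P : ℤ) ^ 4 = (P : ℤ) ^ 2 * (P : ℤ) ^ 2 := by ring
    rw [e]
    exact mul_le_mul (pow_le_pow_left₀ hP0.le haZ 2) (pow_le_pow_left₀ hP0.le hbZ 2)
      (by positivity) (by positivity)
  have k6 : 3 * (P : ℤ) ^ 4 ≤ 16 * x * (b - a) * P := by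
    have : (x : ℤ) * (b ^ 2 - a ^ 2) ≤ x * ((b - a) * (4 * P)) :=
      mul_le_mul_of_nonneg_left k4 hx0.le
    nlinarith
  have k7 : (3 * (P : ℤ) ^ 3) * (P : ℤ) ≤ (16 * (x : ℤ) * ((b : ℤ) - a)) * (P : ℤ) := by
    have e : (3 * (P : ℤ) ^ 3) * (P : ℤ) = 3 * (P : ℤ) ^ 4 := by ring
    rw [e]; exact k6
  exact le_of_mul_le_mul_right k7 hP0

/-- the final numerical contradiction in the collinear case -/
lemma collinear_false (P L x w : ℝ) (hP : 0 < P) (hx : 0 < x) (hL : 0 < L)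
    (hw : 1 ≤ w) (s10 : 10000 * L ^ 3 ≤ x)
    (j4 : 3 * x * w ≤ 16 * L * P ^ 2) (s3 : 9 * P ^ 6 ≤ 256 * x ^ 2 * w) : False := by
  have hP2 : (0 : ℝ) < P ^ 2 := by positivity
  have s4 : 27 * P ^ 6 ≤ 4096 * x * (L * P ^ 2) := by
    have h : 256 * x * (3 * x * w) ≤ 256 * x * (16 * L * P ^ 2) :=
      mul_le_mul_of_nonneg_left j4 (by positivity)
    have h' : 3 * (9 * P ^ 6) ≤ 3 * (256 * x ^ 2 * w) := by linarith
    have e1 : 256 * x * (3 * x * w) = 3 * (256 * x ^ 2 * w) := by ring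
    have e2 : 256 * x * (16 * L * P ^ 2) = 4096 * x * (L * P ^ 2) := by ring
    linarith
  have s5 : 27 * P ^ 4 ≤ 4096 * x * L := by
    have : (27 * P ^ 4) * P ^ 2 ≤ (4096 * x * L) * P ^ 2 := by
      have e1 : (27 * P ^ 4) * P ^ 2 = 27 * P ^ 6 := by ring
      have e2 : (4096 * x * L) * P ^ 2 = 4096 * x * (L * P ^ 2) := by ring
      rw [e1, e2]; exact s4
    exact le_of_mul_le_mul_right this hP2
  have s6 : 3 * x ≤ 16 * L * P ^ 2 := by
    have : 3 * x * 1 ≤ 3 * x * w := mul_le_mul_of_nonneg_left hw (by positivity)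
    linarith
  have s7 : 9 * x ^ 2 ≤ 256 * L ^ 2 * P ^ 4 := by
    have : (3 * x) * (3 * x) ≤ (16 * L * P ^ 2) * (16 * L * P ^ 2) :=
      mul_le_mul s6 s6 (by positivity) (by positivity)
    have e1 : (3 * x) * (3 * x) = 9 * x ^ 2 := by ring
    have e2 : (16 * L * P ^ 2) * (16 * L * P ^ 2) = 256 * L ^ 2 * P ^ 4 := by ring
    linarith
  have s8 : 27 * (9 * x ^ 2) ≤ 256 * L ^ 2 * (4096 * x * L) := by
    have h : 256 * L ^ 2 * (27 * P ^ 4) ≤ 256 * L ^ 2 * (4096 * x * L) :=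
      mul_le_mul_of_nonneg_left s5 (by positivity)
    have e1 : 256 * L ^ 2 * (27 * P ^ 4) = 27 * (256 * L ^ 2 * P ^ 4) := by ring
    linarith
  have s9 : 243 * x ≤ 1048576 * L ^ 3 := by
    have : (243 * x) * x ≤ (1048576 * L ^ 3) * x := by
      have e1 : (243 * x) * x = 27 * (9 * x ^ 2) := by ring
      have e2 : (1048576 * L ^ 3) * x = 256 * L ^ 2 * (4096 * x * L) := by ring
      rw [e1, e2]; exact s8
    exact le_of_mul_le_mul_right this hx
  have hL3 : (0 : ℝ) < L ^ 3 := by positivity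
  linarith

/-- the final estimate in the non-collinear case -/
lemma noncollinear_est (P L x g w T E D : ℝ) (hP : 0 < P) (hx : 0 < x)
    (hg : 0 < g) (hw0 : 0 ≤ w) (hw : w ≤ g ^ 2 / 4) (hT0 : 0 ≤ T) (hT : T ≤ 3 * x / P ^ 4)
    (hE : |E| ≤ L / P ^ 2 * g) (hD : D = T * w * g + E) (hD1 : 1 ≤ |D|) :
    1 ≤ 3 / 4 * (x / P ^ 4) * g ^ 3 + g * L / P ^ 2 := by
  have hTw : 0 ≤ T * w * g := by positivity
  have k1 : |D| ≤ T * w * g + L / P ^ 2 * g := by
    rw [hD]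
    have h := abs_add_le (T * w * g) E
    rw [abs_of_nonneg hTw] at h
    linarith
  have k3 : T * w * g ≤ 3 * x / P ^ 4 * (g ^ 2 / 4) * g := by
    apply mul_le_mul_of_nonneg_right _ hg.le
    exact mul_le_mul hT hw hw0 (by positivity)
  have e : 3 * x / P ^ 4 * (g ^ 2 / 4) * g + L / P ^ 2 * g =
      3 / 4 * (x / P ^ 4) * g ^ 3 + g * L / P ^ 2 := by ring
  linarith

/-- three points in a dyadic block are far apart -/
theorem three_points (P L x a b c q1 q2 q3 : ℕ) (hL : 1 ≤ L) (hP : 1 ≤ P) (hPL : 4 * L ≤ P ^ 2)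
    (hxL : 10000 * L ^ 3 ≤ x)
    (ha : P < a) (hab : a < b) (hbc : b < c) (hc2 : c ≤ 2 * P)
    (h1 : x < q1 * a ^ 2) (h1' : q1 * a ^ 2 ≤ x + L) (h2 : x < q2 * b ^ 2)
    (h2' : q2 * b ^ 2 ≤ x + L) (h3 : x < q3 * c ^ 2) (h3' : q3 * c ^ 2 ≤ x + L) :
    (1 : ℝ) ≤ 3 / 4 * (x / P ^ 4) * ((c : ℝ) - a) ^ 3 + ((c : ℝ) - a) * L / P ^ 2 := by
  have hx : 0 < x := by
    have : 0 < L ^ 3 := by positivity
    omega
  have hPR : (0 : ℝ) < P := by exact_mod_cast hP
  have hxR : (0 : ℝ) < x := by exact_mod_cast hx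
  have hLR : (0 : ℝ) < L := by exact_mod_cast hL
  have haR : (P : ℝ) < a := by exact_mod_cast ha
  have habR : (a : ℝ) + 1 ≤ b := by exact_mod_cast hab
  have hbcR : (b : ℝ) + 1 ≤ c := by exact_mod_cast hbc
  have hc2R : (c : ℝ) ≤ 2 * P := by exact_mod_cast hc2
  have ha0 : (0 : ℝ) < a := by linarith
  have hb0 : (0 : ℝ) < b := by linarith
  have hc0 : (0 : ℝ) < c := by linarith
  have h1R : (x : ℝ) < q1 * a ^ 2 := by exact_mod_cast h1
  have h2R : (x : ℝ) < q2 * b ^ 2 := by exact_mod_cast h2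
  have h3R : (x : ℝ) < q3 * c ^ 2 := by exact_mod_cast h3
  have h1R' : (q1 : ℝ) * a ^ 2 ≤ x + L := by exact_mod_cast h1'
  have h2R' : (q2 : ℝ) * b ^ 2 ≤ x + L := by exact_mod_cast h2'
  have h3R' : (q3 : ℝ) * c ^ 2 ≤ x + L := by exact_mod_cast h3'
  have hdet := det_identity x a b c (q1 * a ^ 2 - x) (q2 * b ^ 2 - x) (q3 * c ^ 2 - x) q1 q2 q3
    ha0 hb0 hc0 (by ring) (by ring) (by ring)
  have herr := err_bound P L a b c (q1 * a ^ 2 - x) (q2 * b ^ 2 - x) (q3 * c ^ 2 - x) hPR hLR.le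
    haR.le (by linarith) (by linarith) (by linarith) (by linarith) (by linarith) (by linarith)
    (by linarith) (by linarith)
  set E := ((q1 * a ^ 2 - x : ℝ)) / a ^ 2 * (c - b) - (q2 * b ^ 2 - x) / b ^ 2 * (c - a) +
    (q3 * c ^ 2 - x) / c ^ 2 * (b - a) with hE
  set w : ℝ := ((b : ℝ) - a) * (c - b) with hw
  have hw0 : 1 ≤ w := by
    rw [hw]; nlinarith
  set T : ℝ := (x : ℝ) * (1 / a + 1 / b + 1 / c) / (a * b * c) with hT
  have hTup : T ≤ 3 * x / P ^ 4 := by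
    have i1 : (1 : ℝ) / a ≤ 1 / P := one_div_le_one_div_of_le hPR haR.le
    have i2 : (1 : ℝ) / b ≤ 1 / P := one_div_le_one_div_of_le hPR (by linarith)
    have i3 : (1 : ℝ) / c ≤ 1 / P := one_div_le_one_div_of_le hPR (by linarith)
    have i4 : (P : ℝ) ^ 3 ≤ a * b * c := by
      calc (P : ℝ) ^ 3 = P * P * P := by ring
        _ ≤ a * b * c := by
            apply mul_le_mul (mul_le_mul haR.le (by linarith) hPR.le ha0.le) (by linarith) hPR.le
              (by positivity)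
    rw [hT]
    calc (x : ℝ) * (1 / a + 1 / b + 1 / c) / (a * b * c) ≤ (x * (3 * (1 / P))) / P ^ 3 := by
          apply div_le_div₀ (by positivity) _ (by positivity) i4
          apply mul_le_mul_of_nonneg_left _ hxR.le
          linarith
      _ = 3 * x / P ^ 4 := by field_simp
  have hTlow : 3 * x / (16 * P ^ 4) ≤ T := by
    have i1 : 1 / (2 * P : ℝ) ≤ 1 / a := one_div_le_one_div_of_le ha0 (by linarith)
    have i2 : 1 / (2 * P : ℝ) ≤ 1 / b := one_div_le_one_div_of_le hb0 (by linarith)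
    have i3 : 1 / (2 * P : ℝ) ≤ 1 / c := one_div_le_one_div_of_le hc0 (by linarith)
    have i4 : (a : ℝ) * b * c ≤ 8 * P ^ 3 := by
      calc (a : ℝ) * b * c ≤ (2 * P) * (2 * P) * (2 * P) := by
            apply mul_le_mul (mul_le_mul (by linarith) (by linarith) hb0.le (by positivity))
              (by linarith) hc0.le (by positivity)
        _ = 8 * P ^ 3 := by ring
    rw [hT]
    calc 3 * (x : ℝ) / (16 * P ^ 4) = (x * (3 * (1 / (2 * P)))) / (8 * P ^ 3) := by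
          field_simp; ring
      _ ≤ (x : ℝ) * (1 / a + 1 / b + 1 / c) / (a * b * c) := by
          apply div_le_div₀ (by positivity) _ (by positivity) i4
          apply mul_le_mul_of_nonneg_left _ hxR.le
          linarith
  have hg : 0 < (c : ℝ) - a := by linarith
  -- the determinant is an integer
  set D : ℤ := (q1 : ℤ) * (c - b) - q2 * (c - a) + q3 * (b - a) with hD
  have hDR : (D : ℝ) = (q1 : ℝ) * (c - b) - q2 * (c - a) + q3 * (b - a) := by
    rw [hD]; push_cast; ring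
  have hmain : (D : ℝ) = T * w * (c - a) + E := by rw [hDR, hdet]
  have hEabs := abs_le.mp herr
  by_cases hD0 : D = 0
  · -- collinear: impossible
    exfalso
    rw [hD0, Int.cast_zero] at hmain
    have j1 : T * w * (c - a) ≤ L / P ^ 2 * (c - a) := by linarith [hEabs.1]
    have j2 : T * w ≤ L / P ^ 2 := le_of_mul_le_mul_right j1 hg
    have j3 : 3 * x / (16 * P ^ 4) * w ≤ L / P ^ 2 :=
      (mul_le_mul_of_nonneg_right hTlow (by linarith)).trans j2
    have j4 : 3 * x * w ≤ 16 * L * P ^ 2 := by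
      have e : 3 * x / (16 * P ^ 4) * w = (3 * x * w) / (16 * P ^ 4) := by ring
      rw [e, div_le_div_iff₀ (by positivity) (by positivity)] at j3
      have hP2 : (0 : ℝ) < P ^ 2 := by positivity
      have : (3 * x * w) * (P ^ 2 : ℝ) ≤ (16 * L * P ^ 2) * P ^ 2 := by
        calc (3 * x * w) * (P ^ 2 : ℝ) ≤ L * (16 * P ^ 4) := j3
          _ = (16 * L * P ^ 2) * P ^ 2 := by ring
      exact le_of_mul_le_mul_right this hP2
    -- spacing
    have s1 := spacing P L x a b q1 q2 hL hP hPL hxL ha (by omega) hab (by omega) h1 h1' h2 h2'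
    have s2 := spacing P L x b c q2 q3 hL hP hPL hxL (by omega) (by omega) hbc hc2 h2 h2' h3 h3'
    have s1R : 3 * (P : ℝ) ^ 3 ≤ 16 * x * (b - a) := by
      have := s1
      have h : ((3 * P ^ 3 : ℕ) : ℝ) ≤ ((16 * x * (b - a) : ℕ) : ℝ) := by exact_mod_cast s1
      rw [Nat.cast_mul, Nat.cast_mul, Nat.cast_mul, Nat.cast_sub hab.le] at h
      push_cast at h
      exact h
    have s2R : 3 * (P : ℝ) ^ 3 ≤ 16 * x * (c - b) := by
      have h : ((3 * P ^ 3 : ℕ) : ℝ) ≤ ((16 * x * (c - b) : ℕ) : ℝ) := by exact_mod_cast s2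
      rw [Nat.cast_mul, Nat.cast_mul, Nat.cast_mul, Nat.cast_sub hbc.le] at h
      push_cast at h
      exact h
    have s3 : 9 * (P : ℝ) ^ 6 ≤ 256 * x ^ 2 * w := by
      have : (3 * (P : ℝ) ^ 3) * (3 * (P : ℝ) ^ 3) ≤ (16 * x * (b - a)) * (16 * x * (c - b)) :=
        mul_le_mul s1R s2R (by positivity) (by
          have : (0 : ℝ) ≤ b - a := by linarith
          positivity)
      calc 9 * (P : ℝ) ^ 6 = (3 * (P : ℝ) ^ 3) * (3 * (P : ℝ) ^ 3) := by ring
        _ ≤ _ := this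
        _ = 256 * x ^ 2 * w := by rw [hw]; ring
    exact collinear_false P L x w hPR hxR hLR hw0 (by exact_mod_cast hxL) j4 s3
  · -- non-collinear
    have hD1 : (1 : ℝ) ≤ |(D : ℝ)| := by
      rw [← Int.cast_abs]
      exact_mod_cast Int.one_le_abs hD0
    have hT0 : 0 ≤ T := le_trans (by positivity) hTlow
    have k2 : w ≤ ((c : ℝ) - a) ^ 2 / 4 := by
      have e : ((c : ℝ) - a) ^ 2 / 4 - w = (((b : ℝ) - a) - (c - b)) ^ 2 / 4 := by rw [hw]; ring
      have : 0 ≤ (((b : ℝ) - a) - (c - b)) ^ 2 / 4 := by positivity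
      linarith
    exact noncollinear_est P L x (c - a) w T E D hPR hxR hg (by linarith) k2 hT0 hTup herr hmain hD1

end Pool.Agent.W268.CN
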