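import Pool.Agent.W268.CN.Main

/-!
Squarefree congruent numbers in `[X, X + X^θ]`, `θ > 2/3`, in the classes 1, 2, 3, 5, 6, 7 mod 8.
(helper268)
-/

set_option autoImplicit false

namespace Pool.Agent.W268.CN

lemma fin_len (X θ T u : ℝ) (M : ℕ) (hM : 1 ≤ M) (hMθ : 3 / (M : ℝ) ≤ θ - 2 / 3) (hX : 1 ≤ X)
    (hT : 4 ≤ T) (hTX : T ^ M ≤ X) (hu : 0 ≤ u) (hu6 : u ^ 6 ≤ 4 * X) :
    T ^ 2 * u ^ 4 ≤ X ^ θ := by
  have hX0 : 0 < X := by linarith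
  have hMR : (0 : ℝ) < M := by exact_mod_cast hM
  set v : ℝ := X ^ (1 / (M : ℝ)) with hv
  have hv0 : 0 ≤ v := Real.rpow_nonneg hX0.le _
  have hvM : v ^ M = X := by
    rw [hv, ← Real.rpow_natCast, ← Real.rpow_mul hX0.le]
    rw [one_div, inv_mul_cancel₀ hMR.ne', Real.rpow_one]
  have hTv : T ≤ v := by
    apply le_of_pow_le_pow_left₀ (by omega : M ≠ 0) hv0
    rw [hvM]; exact hTX
  have hu4 : u ^ 4 ≤ v * X ^ (2 / 3 : ℝ) := by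
    have e1 : u ^ 4 = (u ^ 6) ^ (2 / 3 : ℝ) := by
      rw [← Real.rpow_natCast u 6, ← Real.rpow_mul hu, ← Real.rpow_natCast]
      norm_num
    have e2 : (u ^ 6) ^ (2 / 3 : ℝ) ≤ (4 * X) ^ (2 / 3 : ℝ) :=
      Real.rpow_le_rpow (by positivity) hu6 (by norm_num)
    have e3 : (4 * X) ^ (2 / 3 : ℝ) = (4 : ℝ) ^ (2 / 3 : ℝ) * X ^ (2 / 3 : ℝ) :=
      Real.mul_rpow (by norm_num) hX0.le
    have e4 : (4 : ℝ) ^ (2 / 3 : ℝ) ≤ 4 := by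
      calc (4 : ℝ) ^ (2 / 3 : ℝ) ≤ (4 : ℝ) ^ (1 : ℝ) :=
            Real.rpow_le_rpow_of_exponent_le (by norm_num) (by norm_num)
        _ = 4 := Real.rpow_one 4
    rw [e1]
    refine e2.trans ?_
    rw [e3]
    apply mul_le_mul_of_nonneg_right _ (Real.rpow_nonneg hX0.le _)
    linarith
  have hT2 : T ^ 2 ≤ v ^ 2 := pow_le_pow_left₀ (by linarith) hTv 2
  calc T ^ 2 * u ^ 4 ≤ v ^ 2 * (v * X ^ (2 / 3 : ℝ)) :=
        mul_le_mul hT2 hu4 (by positivity) (by positivity)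
    _ = v ^ 3 * X ^ (2 / 3 : ℝ) := by ring
    _ = X ^ (3 / (M : ℝ) + 2 / 3) := by
        rw [Real.rpow_add hX0]
        congr 1
        rw [hv, ← Real.rpow_natCast, ← Real.rpow_mul hX0.le]
        congr 1
        push_cast
        ring
    _ ≤ X ^ θ := Real.rpow_le_rpow_of_exponent_le hX (by linarith)

theorem short_intervals (θ : ℝ) (hθ : 2 / 3 < θ) :
    ∃ X0 : ℝ, ∀ X : ℝ, X0 ≤ X → ∀ j : ℕ,
      (j = 1 ∨ j = 2 ∨ j = 3 ∨ j = 5 ∨ j = 6 ∨ j = 7) →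
      ∃ d : ℕ, X ≤ d ∧ (d : ℝ) ≤ X + X ^ θ ∧ Squarefree d ∧ d % 8 = j ∧
        ∃ a b c : ℚ, 0 < a ∧ 0 < b ∧ 0 < c ∧ a ^ 2 + b ^ 2 = c ^ 2 ∧ (d : ℚ) = a * b / 2 := by
  have hθ0 : 0 < θ - 2 / 3 := by linarith
  obtain ⟨M, hM48, hMθ⟩ : ∃ M : ℕ, 48 ≤ M ∧ 3 / (M : ℝ) ≤ θ - 2 / 3 := by
    refine ⟨max 48 ⌈3 / (θ - 2 / 3)⌉₊, le_max_left _ _, ?_⟩
    have h1 : 3 / (θ - 2 / 3) ≤ ((max 48 ⌈3 / (θ - 2 / 3)⌉₊ : ℕ) : ℝ) := by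
      refine (Nat.le_ceil _).trans ?_
      exact_mod_cast le_max_right _ _
    have h2 : (0 : ℝ) < ((max 48 ⌈3 / (θ - 2 / 3)⌉₊ : ℕ) : ℝ) := by
      refine lt_of_lt_of_le ?_ h1
      positivity
    rw [div_le_iff₀ h2]
    rw [div_le_iff₀ hθ0] at h1
    linarith
  refine ⟨((4 : ℝ) ^ M) ^ (4 ^ (60 * M) + 1), ?_⟩
  intro X hX j hj
  have hb : 1 < 4 ^ M := Nat.one_lt_pow (by omega) (by norm_num)
  have hX1 : (1 : ℝ) ≤ X := by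
    refine le_trans ?_ hX
    apply one_le_pow₀
    apply one_le_pow₀
    norm_num
  have hX0 : 0 ≤ X := by linarith
  have hn : 1 ≤ ⌊X⌋₊ := by
    rw [Nat.one_le_floor_iff]; exact hX1
  set y := Nat.log (4 ^ M) ⌊X⌋₊ with hydef
  have h1 : (4 ^ M) ^ y ≤ ⌊X⌋₊ := Nat.pow_log_le_self _ (by omega)
  have h2 : ⌊X⌋₊ < (4 ^ M) ^ (y + 1) := Nat.lt_pow_succ_log_self hb _
  have h3 : 4 ^ (60 * M) + 1 ≤ y := by
    apply Nat.le_log_of_pow_le hb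
    rw [Nat.le_floor_iff hX0]
    push_cast
    exact hX
  have hA : (4 : ℝ) ^ (M * y) ≤ X := by
    have e : (((4 ^ M) ^ y : ℕ) : ℝ) ≤ (⌊X⌋₊ : ℝ) := by exact_mod_cast h1
    push_cast at e
    rw [← pow_mul] at e
    exact e.trans (Nat.floor_le hX0)
  have hB : X < (4 : ℝ) ^ (M * (y + 1)) := by
    have e : ((⌊X⌋₊ + 1 : ℕ) : ℝ) ≤ (((4 ^ M) ^ (y + 1) : ℕ) : ℝ) := by exact_mod_cast h2
    push_cast at e
    rw [← pow_mul] at e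
    exact lt_of_lt_of_le (Nat.lt_floor_add_one X) e
  obtain ⟨d, u, d1, d2, d3, d4, d5, d6⟩ := core X M y j hM48 (by omega) hA hB hj
  refine ⟨d, d1, d2.trans ?_, d4, d5, d6⟩
  have hT4 : (4 : ℝ) ≤ (4 : ℝ) ^ y := by
    apply le_self_pow₀ (by norm_num)
    exact Nat.one_le_iff_ne_zero.mp (le_trans (Nat.le_add_left 1 _) h3)
  have := fin_len X θ ((4 : ℝ) ^ y) u M (by omega) hMθ hX1 hT4 (by
    rw [← pow_mul, mul_comm y M]; exact hA) (Nat.cast_nonneg _) d3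
  linarith

end Pool.Agent.W268.CN
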