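import Pool.Agent.W268.CN.Core

/-!
Existence of a squarefree congruent number in `[X, X + 4^(2y) u^4]`, `u^6 ≤ 4 X`. (helper268)
-/

set_option autoImplicit false

namespace Pool.Agent.W268.CN

lemma res_lt (j : ℕ) : res j < 72 := by
  unfold res; split_ifs <;> norm_num

lemma aux_usq (u : ℝ) (h : (10 : ℝ) ^ 12 ≤ u) : (10 : ℝ) ^ 12 * u ≤ u ^ 2 := by
  have h0 : 0 ≤ u := le_trans (by norm_num) h
  rw [pow_two u]
  exact mul_le_mul_of_nonneg_right h h0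

lemma aux_aL (κ U D t2 a C : ℝ) (k1 : 0.57 < κ) (hU : 0 < U) (ht2 : t2 = κ * U - D + 1)
    (hD : D - 1 ≤ 0.01 * U) (ha1 : t2 ≤ a) (hC : 10 * C ≤ U) : C < a := by
  have : 0.57 * U ≤ κ * U := mul_le_mul_of_nonneg_right k1.le hU.le
  linarith

lemma aux_aU (κ u K D t2 a C : ℝ) (k2 : κ < 0.58) (hu : (10 : ℝ) ^ 12 ≤ u)
    (ht2 : t2 = κ * u ^ 2 - D + 1) (hD : 1 ≤ D) (ha2 : a ≤ t2 + 71) (hC : 10 * C ≤ u ^ 2)
    (hK : 1000 * K ≤ u) : a + 72 * K + C ≤ u ^ 2 := by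
  have h0 := aux_usq u hu
  have h1 : κ * u ^ 2 ≤ 0.58 * u ^ 2 := mul_le_mul_of_nonneg_right k2.le (by positivity)
  have h2 : (10 : ℝ) ^ 12 * 10 ^ 12 ≤ 10 ^ 12 * u := mul_le_mul_of_nonneg_left hu (by norm_num)
  norm_num at h0 h2 hu
  linarith

lemma aux_I (M y : ℕ) (hM : M < y) (hy : 20 ≤ y) :
    2 * (M * (y + 1) + 1) + 1 ≤ 4 * y ^ 2 := by
  have h1 : M * (y + 1) ≤ y * (y + 1) := Nat.mul_le_mul_right _ hM.le
  have h2 : 20 * y ≤ y * y := Nat.mul_le_mul_right _ hy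
  have e : y * (y + 1) = y * y + y := by ring
  rw [pow_two]
  omega

lemma aux_5y (y : ℕ) (hy : 20 ≤ y) : 5 * y ≤ 480 * y ^ 2 := by
  have h2 : 20 * y ≤ y * y := Nat.mul_le_mul_right _ hy
  rw [pow_two]; omega

set_option maxHeartbeats 1000000 in
theorem core (X : ℝ) (M y j : ℕ) (hM : 48 ≤ M) (hy : 4 ^ (60 * M) < y)
    (hX1 : (4 : ℝ) ^ (M * y) ≤ X) (hX2 : X < (4 : ℝ) ^ (M * (y + 1)))
    (hj : j = 1 ∨ j = 2 ∨ j = 3 ∨ j = 5 ∨ j = 6 ∨ j = 7) :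
    ∃ d u : ℕ, X ≤ d ∧ (d : ℝ) ≤ X + ((4 : ℝ) ^ y) ^ 2 * (u : ℝ) ^ 4 ∧ (u : ℝ) ^ 6 ≤ 4 * X ∧
      Squarefree d ∧ d % 8 = j ∧
      ∃ a b c : ℚ, 0 < a ∧ 0 < b ∧ 0 < c ∧ a ^ 2 + b ^ 2 = c ^ 2 ∧ (d : ℚ) = a * b / 2 := by
  have hMy : M < y := by
    have h1 : M < 4 ^ M := Nat.lt_pow_self (by norm_num)
    have h2 : 4 ^ M ≤ 4 ^ (60 * M) := Nat.pow_le_pow_right (by norm_num) (by omega)
    exact lt_of_lt_of_le h1 (h2.trans hy.le)
  have hy20 : 20 ≤ y := by omega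
  obtain ⟨hT2, hT⟩ := four_pow_bound y hy20
  set T : ℕ := 4 ^ y with hTdef
  have hTR : ((T : ℕ) : ℝ) = (4 : ℝ) ^ y := by rw [hTdef]; push_cast; rfl
  have hX0 : 0 < X := lt_of_lt_of_le (by positivity) hX1
  set P : ℕ := primorial y with hPdef
  have hP1 : 1 ≤ P := primorial_pos y
  have hPT : P ≤ T := primorial_le_four_pow y
  have hP2 : 2 ∣ P := Nat.prime_two.dvd_primorial_iff.mpr (by omega)
  have hP3 : 3 ∣ P := Nat.prime_three.dvd_primorial_iff.mpr (by omega)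
  obtain ⟨s, hs, hsj⟩ : ∃ s : ℕ, (s = 1 ∨ s = 2) ∧ s % 2 = (j + 1) % 2 := by
    rcases Nat.mod_two_eq_zero_or_one j with h | h
    · exact ⟨1, Or.inl rfl, by omega⟩
    · exact ⟨2, Or.inr rfl, by omega⟩
  obtain ⟨κ, hκ0, hκ⟩ : ∃ κ : ℝ, 0 < κ ∧ 3 * κ ^ 2 = 1 := by
    refine ⟨1 / Real.sqrt 3, by positivity, ?_⟩
    rw [div_pow, Real.sq_sqrt (by norm_num)]; norm_num
  obtain ⟨k1, k2⟩ := kappa_bounds κ hκ0 hκ
  obtain ⟨m, hu1, hu2⟩ := choose_u X κ hX0 hκ0 hκ P s hP1 hs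
  have hpr : ∀ p, p.Prime → 5 ≤ p → p ∣ s * (P * m + 1) → y < p :=
    fun p hp h5 hd => prime_gt s y m p hs hp h5 hd
  obtain ⟨r2, hr2⟩ := hP2
  obtain ⟨r3, hr3⟩ := hP3
  have hupar : (s * (P * m + 1)) % 2 = (j + 1) % 2 := by
    have : (P * m + 1) % 2 = 1 := by
      rw [hr2, mul_assoc]; omega
    rw [Nat.mul_mod, this, mul_one, Nat.mod_mod, hsj]
  have hu3 : (s * (P * m + 1)) % 3 ≠ 0 := by
    have : (P * m + 1) % 3 = 1 := by
      rw [hr3, mul_assoc]; omega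
    rw [Nat.mul_mod, this, mul_one, Nat.mod_mod]
    rcases hs with rfl | rfl <;> norm_num
  have hupos : 0 < s * (P * m + 1) := by
    rcases hs with rfl | rfl <;> positivity
  generalize s * (P * m + 1) = u at hu1 hu2 hpr hupar hu3 hupos
  have huR0 : (0 : ℝ) < u := by exact_mod_cast hupos
  have hPTR : (P : ℝ) ≤ T := by exact_mod_cast hPT
  have hTbig : (10 : ℝ) ^ 12 ≤ T := by exact_mod_cast hT
  have hX1' : ((T : ℕ) : ℝ) ^ M ≤ X := by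
    rw [hTR, ← pow_mul, mul_comm y M]; exact hX1
  obtain ⟨hu8R, hu6⟩ := size_u X κ T P u M hM k1 k2 hTbig hPTR huR0 hX1' hu1 hu2
  have hu8 : T ^ 8 ≤ u := by exact_mod_cast hu8R
  have hT1 : 1 ≤ T := le_trans (by norm_num) hT
  have hTu : T * 10 ^ 12 ≤ u := by
    calc T * 10 ^ 12 ≤ T * T := Nat.mul_le_mul_left _ hT
      _ = T ^ 2 := by ring
      _ ≤ T ^ 8 := Nat.pow_le_pow_right hT1 (by norm_num)
      _ ≤ u := hu8
  have hu12 : 10 ^ 12 ≤ u := le_trans (Nat.le_mul_of_pos_left _ hT1) hTu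
  -- the upper bound for u in terms of y
  have huy6 : u ^ 6 ≤ 4 ^ (M * (y + 1) + 1) := by
    have : (u : ℝ) ^ 6 ≤ (4 : ℝ) ^ (M * (y + 1) + 1) := by
      rw [pow_succ (4 : ℝ)]
      linarith
    exact_mod_cast this
  have huy2 : u ^ 2 ≤ 4 ^ (M * (y + 1) + 1) :=
    (Nat.pow_le_pow_right hupos (by norm_num)).trans huy6
  have huy1 : u ≤ 4 ^ (M * (y + 1) + 1) := (Nat.le_self_pow (by norm_num) u).trans huy6
  -- the range of t
  obtain ⟨t2, D, ht2, hD1, hDlow, hDup, hrange⟩ := choose_t X κ (6 * P) hX0 hκ0 hκ u (by omega)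
    hu1 hu2
  -- W, K, z
  obtain ⟨hw1, hw2, hw3, hw4⟩ := par_sqrt u T hT hu8
  set w := Nat.sqrt u with hw
  set W := w + 1 with hWdef
  obtain ⟨c1, c2, c3⟩ := par_K2 u T w W hT hw1 hw2 hw4
  have c4 := par_cube u T w W hT hw1 hw2 hw4
  have hW1 : 1 ≤ W := by omega
  have hTK : T ≤ W * T := Nat.le_mul_of_pos_left _ hW1
  have hK12 : 10 ^ 12 ≤ W * T := hT.trans hTK
  obtain ⟨z1, z2, z3, z4⟩ := par_z (W * T) hK12
  have c5 := par_W3 u T W (W * T / 100) hT hw3 z3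
  have hW28800 : 28800 ≤ W := by
    have : T ≤ T ^ 4 := Nat.le_self_pow (by norm_num) T
    omega
  have c6 := par_WL (W * T) W (W * T / 100) hW28800 z3
  -- K as an opaque natural
  obtain ⟨K, hKdef⟩ : ∃ K : ℕ, K = W * T := ⟨_, rfl⟩
  rw [← hKdef] at c1 c2 c3 c4 hTK hK12 z1 z2 z3 z4 c5 c6
  -- real estimates on D, t2
  have hD6 : (D - 1) ^ 2 ≤ 6 * T * (u : ℝ) ^ 3 := by
    refine hDup.trans ?_
    apply mul_le_mul_of_nonneg_right _ (by positivity)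
    linarith
  have huR : (10 : ℝ) ^ 12 ≤ u := by exact_mod_cast hu12
  have hTuR : (T : ℝ) * 10 ^ 12 ≤ u := by exact_mod_cast hTu
  have hDsmall : D - 1 ≤ 0.01 * (u : ℝ) ^ 2 := by
    apply le_of_sq_le_sq _ (by positivity)
    calc (D - 1) ^ 2 ≤ 6 * T * (u : ℝ) ^ 3 := hD6
      _ ≤ (0.0001 * u) * (u : ℝ) ^ 3 := by
          apply mul_le_mul_of_nonneg_right _ (by positivity)
          linarith
      _ = (0.01 * (u : ℝ) ^ 2) ^ 2 := by ring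
  have hD73 : 73 * (K : ℝ) ≤ D := by
    apply le_of_sq_le_sq _ (by linarith)
    have e1 : 2 * (73 * (K : ℝ)) ^ 2 ≤ (u : ℝ) ^ 3 := by exact_mod_cast c2
    linarith
  have hKR : (10 : ℝ) ^ 12 ≤ K := by exact_mod_cast hK12
  -- a
  obtain ⟨a, ha1, ha2, ha3⟩ : ∃ a : ℕ, t2 ≤ a ∧ a ≤ t2 + 71 ∧ a % 72 = res j := by
    have hr := res_lt j
    refine ⟨t2 + (res j + 72 - t2 % 72) % 72, by omega, by omega, by omega⟩
  have hu2big : (10 : ℝ) ^ 12 * u ≤ (u : ℝ) ^ 2 := aux_usq u huR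
  have ha1R : (t2 : ℝ) ≤ a := by exact_mod_cast ha1
  have ha2R : (a : ℝ) ≤ t2 + 71 := by exact_mod_cast ha2
  have c4R : 10 * (10000 * (72 * (K : ℝ)) ^ 3) ≤ (u : ℝ) ^ 2 := by exact_mod_cast c4
  have c3R : 1000 * (K : ℝ) ≤ u := by exact_mod_cast c3
  have hu20 : (0 : ℝ) < (u : ℝ) ^ 2 := by positivity
  have haL : 10000 * (72 * K) ^ 3 < a := by
    have : (10000 * (72 * (K : ℝ)) ^ 3) < a :=
      aux_aL κ ((u : ℝ) ^ 2) D t2 a _ k1 hu20 ht2 hDsmall ha1R c4R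
    exact_mod_cast this
  have haU : a + 72 * K + 10000 * (72 * K) ^ 3 ≤ u ^ 2 := by
    have : (a : ℝ) + 72 * K + 10000 * (72 * (K : ℝ)) ^ 3 ≤ (u : ℝ) ^ 2 :=
      aux_aU κ u K D t2 a _ k2 huR ht2 hD1 ha2R c4R c3R
    exact_mod_cast this
  have hI : u ^ 2 + a + 72 * K ≤ 2 ^ (2 * (M * (y + 1) + 1) + 1) := by
    have e : 2 ^ (2 * (M * (y + 1) + 1) + 1) = 2 * 4 ^ (M * (y + 1) + 1) := by
      rw [pow_succ, pow_mul]; norm_num; ring
    rw [e]; omega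
  have hIW : 120 * ((2 * (M * (y + 1) + 1) + 1) * W) ≤ K := by
    have e1 : 120 * (2 * (M * (y + 1) + 1) + 1) ≤ T := by
      have := aux_I M y hMy hy20
      omega
    calc 120 * ((2 * (M * (y + 1) + 1) + 1) * W) = W * (120 * (2 * (M * (y + 1) + 1) + 1)) := by
          ring
      _ ≤ W * T := Nat.mul_le_mul_left _ e1
      _ = K := hKdef.symm
  have hom := omega_bound u y M (by omega) (by omega) hy huy1 hpr
  have hom2 : 100 * ((u.primeFactors).filter (fun p => 5 ≤ p)).card ≤ K := by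
    have := aux_5y y hy20
    omega
  obtain ⟨k, hk, hgood⟩ := sieve u a K y (K / 100) W (2 * (M * (y + 1) + 1) + 1) (by omega)
    (by omega) hpr hom hom2 z1 z2 z4 haL haU hW1 (by omega) c6 hI hIW
  -- t
  have ht72 : (a + 72 * k) % 72 = res j := by omega
  have htu : a + 72 * k < u ^ 2 := by omega
  obtain ⟨f1, f2, f3⟩ := family u (a + 72 * k) j hj hupos htu hu3 hupar ht72 hgood
  have hkR : (k : ℝ) + 1 ≤ K := by exact_mod_cast hk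
  have htR : ((a + 72 * k : ℕ) : ℝ) ≤ t2 + 72 * K - 1 := by
    push_cast; linarith
  have ht0 : ((a + 72 * k : ℕ) : ℝ) ≤ κ * (u : ℝ) ^ 2 := by
    linarith
  obtain ⟨g1, g2⟩ := hrange (a + 72 * k) (by omega) ht0
  have hdR : (((a + 72 * k) * (u ^ 2 - (a + 72 * k)) * (u ^ 2 + (a + 72 * k)) : ℕ) : ℝ) =
      (u : ℝ) ^ 4 * ((a + 72 * k : ℕ) : ℝ) - ((a + 72 * k : ℕ) : ℝ) ^ 3 := by
    rw [Nat.cast_mul, Nat.cast_mul, Nat.cast_sub htu.le]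
    push_cast
    ring
  refine ⟨(a + 72 * k) * (u ^ 2 - (a + 72 * k)) * (u ^ 2 + (a + 72 * k)), u, ?_, ?_, hu6, f1, f2,
    f3⟩
  · rw [hdR]; exact g1
  · rw [hdR]
    refine g2.trans ?_
    have hlen := final_len K u T D κ (((a + 72 * k : ℕ) : ℝ) - t2 + 1) k2 hκ0 (by linarith) huR0
      hTbig (by exact_mod_cast c1) (by linarith) hD6 (by linarith)
    rw [← hTR]
    linarith

end Pool.Agent.W268.CN
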