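import Mathlib

/-!
Numerical bookkeeping: `T = 4^y`, `T^8 ≤ u`, `W = sqrt u + 1`, `K = W T`, `z = K / 100`. (helper268)
-/

set_option autoImplicit false

namespace Pool.Agent.W268.CN

lemma par_sqrt (u T : ℕ) (hT : 10 ^ 12 ≤ T) (hu : T ^ 8 ≤ u) :
    T ^ 4 ≤ Nat.sqrt u ∧ Nat.sqrt u * Nat.sqrt u ≤ u ∧
      u < (Nat.sqrt u + 1) * (Nat.sqrt u + 1) ∧ (Nat.sqrt u + 1) ≤ 2 * Nat.sqrt u := by
  have h1 : T ^ 4 ≤ Nat.sqrt u := by
    rw [Nat.le_sqrt]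
    calc T ^ 4 * T ^ 4 = T ^ 8 := by ring
      _ ≤ u := hu
  refine ⟨h1, Nat.sqrt_le u, Nat.lt_succ_sqrt u, ?_⟩
  have : 1 ≤ T ^ 4 := Nat.one_le_pow _ _ (by omega)
  omega

lemma par_z (K : ℕ) (hK : 10 ^ 12 ≤ K) :
    4 ≤ K / 100 ∧ 100 * (K / 100) ≤ K ∧ K ≤ 200 * (K / 100) ∧
      4 * (72 * K) ≤ (K / 100) ^ 2 := by
  have h1 : 100 * (K / 100) ≤ K := Nat.mul_div_le K 100
  have h2 : K ≤ 200 * (K / 100) := by omega
  refine ⟨by omega, h1, h2, ?_⟩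
  have h3 : 57600 ≤ K / 100 := by omega
  calc 4 * (72 * K) = 288 * K := by ring
    _ ≤ 288 * (200 * (K / 100)) := Nat.mul_le_mul_left _ h2
    _ = 57600 * (K / 100) := by ring
    _ ≤ (K / 100) * (K / 100) := Nat.mul_le_mul_right _ h3
    _ = (K / 100) ^ 2 := by ring

/-- the cube bound -/
lemma par_cube (u T w W : ℕ) (hT : 10 ^ 12 ≤ T) (h1 : T ^ 4 ≤ w) (h2 : w * w ≤ u)
    (h4 : W ≤ 2 * w) : 10 * (10000 * (72 * (W * T)) ^ 3) ≤ u ^ 2 := by
  have e1 : 10 * (10000 * (72 * (W * T)) ^ 3) ≤ 10 ^ 12 * (T ^ 3 * w ^ 3) := by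
    calc 10 * (10000 * (72 * (W * T)) ^ 3) = 37324800000 * (W ^ 3 * T ^ 3) := by ring
      _ ≤ 37324800000 * ((2 * w) ^ 3 * T ^ 3) := by
          apply Nat.mul_le_mul_left
          apply Nat.mul_le_mul_right
          exact Nat.pow_le_pow_left h4 3
      _ = 298598400000 * (T ^ 3 * w ^ 3) := by ring
      _ ≤ 10 ^ 12 * (T ^ 3 * w ^ 3) := Nat.mul_le_mul_right _ (by norm_num)
  calc 10 * (10000 * (72 * (W * T)) ^ 3) ≤ 10 ^ 12 * (T ^ 3 * w ^ 3) := e1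
    _ ≤ T * (T ^ 3 * w ^ 3) := Nat.mul_le_mul_right _ hT
    _ = T ^ 4 * w ^ 3 := by ring
    _ ≤ w * w ^ 3 := Nat.mul_le_mul_right _ h1
    _ = (w * w) ^ 2 := by ring
    _ ≤ u ^ 2 := Nat.pow_le_pow_left h2 2

lemma par_K2 (u T w W : ℕ) (hT : 10 ^ 12 ≤ T) (h1 : T ^ 4 ≤ w) (h2 : w * w ≤ u)
    (h4 : W ≤ 2 * w) : (W * T) ^ 2 ≤ 4 * u * T ^ 2 ∧ 2 * (73 * (W * T)) ^ 2 ≤ u ^ 3 ∧
      1000 * (W * T) ≤ u := by
  have k1 : (W * T) ^ 2 ≤ 4 * u * T ^ 2 := by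
    calc (W * T) ^ 2 = W ^ 2 * T ^ 2 := by ring
      _ ≤ (2 * w) ^ 2 * T ^ 2 := Nat.mul_le_mul_right _ (Nat.pow_le_pow_left h4 2)
      _ = 4 * (w * w) * T ^ 2 := by ring
      _ ≤ 4 * u * T ^ 2 := by
          apply Nat.mul_le_mul_right; apply Nat.mul_le_mul_left; exact h2
  have hT1 : 1 ≤ T := by omega
  have hw1 : 1 ≤ w := le_trans (Nat.one_le_pow _ _ (by omega)) h1
  refine ⟨k1, ?_, ?_⟩
  · calc 2 * (73 * (W * T)) ^ 2 = 10658 * (W * T) ^ 2 := by ring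
      _ ≤ 10658 * (4 * u * T ^ 2) := Nat.mul_le_mul_left _ k1
      _ = 42632 * (u * T ^ 2) := by ring
      _ ≤ T * (u * T ^ 2) := Nat.mul_le_mul_right _ (by omega)
      _ = T ^ 3 * u := by ring
      _ ≤ T ^ 4 * u := Nat.mul_le_mul_right _ (Nat.pow_le_pow_right hT1 (by norm_num))
      _ ≤ w * u := Nat.mul_le_mul_right _ h1
      _ ≤ (w * w) * u := Nat.mul_le_mul_right _ (Nat.le_mul_of_pos_left _ hw1)
      _ ≤ u * u := Nat.mul_le_mul_right _ h2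
      _ ≤ (u * u) * u := Nat.le_mul_of_pos_right _ (by
          have : 1 ≤ w * w := Nat.mul_pos hw1 hw1
          omega)
      _ = u ^ 3 := by ring
  · calc 1000 * (W * T) ≤ 1000 * (2 * w * T) := by
          apply Nat.mul_le_mul_left; exact Nat.mul_le_mul_right _ h4
      _ = 2000 * (T * w) := by ring
      _ ≤ T * (T * w) := Nat.mul_le_mul_right _ (by omega)
      _ = T ^ 2 * w := by ring
      _ ≤ T ^ 4 * w := Nat.mul_le_mul_right _ (Nat.pow_le_pow_right hT1 (by norm_num))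
      _ ≤ w * w := Nat.mul_le_mul_right _ h1
      _ ≤ u := h2

lemma par_W3 (u T W z : ℕ) (hT : 10 ^ 12 ≤ T) (h3 : u < W * W) (hz : W * T ≤ 200 * z) :
    4 * u ^ 2 ≤ z * W ^ 3 := by
  have : 200 * (4 * u ^ 2) ≤ 200 * (z * W ^ 3) := by
    calc 200 * (4 * u ^ 2) = 800 * u ^ 2 := by ring
      _ ≤ T * u ^ 2 := Nat.mul_le_mul_right _ (by omega)
      _ ≤ T * (W * W) ^ 2 := Nat.mul_le_mul_left _ (Nat.pow_le_pow_left h3.le 2)
      _ = (W * T) * W ^ 3 := by ring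
      _ ≤ (200 * z) * W ^ 3 := Nat.mul_le_mul_right _ hz
      _ = 200 * (z * W ^ 3) := by ring
  exact Nat.le_of_mul_le_mul_left this (by norm_num)

lemma par_WL (K W z : ℕ) (hW : 28800 ≤ W) (hz : K ≤ 200 * z) : 2 * (72 * K) ≤ W * z := by
  calc 2 * (72 * K) = 144 * K := by ring
    _ ≤ 144 * (200 * z) := Nat.mul_le_mul_left _ hz
    _ = 28800 * z := by ring
    _ ≤ W * z := Nat.mul_le_mul_right _ hW

/-- the number of prime factors `≥ 5` when all of them exceed `y` -/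
lemma omega_bound (u y M : ℕ) (hu : u ≠ 0) (hM : 1 ≤ M) (hy : 4 ^ (60 * M) < y)
    (huy : u ≤ 4 ^ (M * (y + 1) + 1)) (hp : ∀ p, p.Prime → 5 ≤ p → p ∣ u → y < p) :
    20 * ((u.primeFactors).filter (fun p => 5 ≤ p)).card ≤ y := by
  by_contra hcon
  push Not at hcon
  set om := ((u.primeFactors).filter (fun p => 5 ≤ p)).card with hom
  have hy1 : 1 ≤ y := lt_of_le_of_lt (Nat.zero_le _) hy
  have h1 : y ^ om ≤ u := by
    calc y ^ om = ∏ _p ∈ (u.primeFactors).filter (fun p => 5 ≤ p), y := by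
          rw [Finset.prod_const]
      _ ≤ ∏ p ∈ (u.primeFactors).filter (fun p => 5 ≤ p), p := by
          apply Finset.prod_le_prod'
          intro p hpm
          simp only [Finset.mem_filter] at hpm
          exact (hp p (Nat.prime_of_mem_primeFactors hpm.1) hpm.2
            (Nat.dvd_of_mem_primeFactors hpm.1)).le
      _ ≤ ∏ p ∈ u.primeFactors, p := by
          apply Finset.prod_le_prod_of_subset_of_one_le' (Finset.filter_subset _ _)
          intro p hpm _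
          exact (Nat.prime_of_mem_primeFactors hpm).one_lt.le
      _ ≤ u := Nat.le_of_dvd (Nat.pos_of_ne_zero hu) (Nat.prod_primeFactors_dvd u)
  have h2 : y ^ y ≤ (4 ^ (60 * M)) ^ y := by
    calc y ^ y ≤ y ^ (20 * om) := Nat.pow_le_pow_right hy1 (by omega)
      _ = (y ^ om) ^ 20 := by rw [← pow_mul, mul_comm]
      _ ≤ (4 ^ (M * (y + 1) + 1)) ^ 20 := Nat.pow_le_pow_left (h1.trans huy) 20
      _ = 4 ^ ((M * (y + 1) + 1) * 20) := by rw [← pow_mul]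
      _ ≤ 4 ^ (60 * M * y) := by
          apply Nat.pow_le_pow_right (by norm_num)
          nlinarith
      _ = (4 ^ (60 * M)) ^ y := by rw [pow_mul]
  have h3 : y ≤ 4 ^ (60 * M) := by
    by_contra h
    push Not at h
    have := Nat.pow_lt_pow_left h (show y ≠ 0 by omega)
    omega
  omega

lemma four_pow_bound (y : ℕ) (hy : 20 ≤ y) : 480 * y ^ 2 ≤ 4 ^ y ∧ 10 ^ 12 ≤ 4 ^ y := by
  induction y, hy using Nat.le_induction with
  | base => norm_num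
  | succ n hn ih =>
    constructor
    · have h : (n + 1) ^ 2 ≤ 4 * n ^ 2 := by nlinarith
      calc 480 * (n + 1) ^ 2 ≤ 480 * (4 * n ^ 2) := Nat.mul_le_mul_left _ h
        _ = 4 * (480 * n ^ 2) := by ring
        _ ≤ 4 * 4 ^ n := Nat.mul_le_mul_left _ ih.1
        _ = 4 ^ (n + 1) := by ring
    · have : 4 ^ n ≤ 4 ^ (n + 1) := Nat.pow_le_pow_right (by norm_num) (by omega)
      omega

end Pool.Agent.W268.CN
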